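import Mathlib

/-!
# The alignment lemma

Four intervals on a circle, one for each parity class of a planar lattice, can be avoided
simultaneously by an affine function on the lattice.
-/

set_option autoImplicit false
namespace Pool.Agent.Helper59.Pack

theorem exists_gcd4 (c : Fin 4 → ℤ) (h : ∀ i, c i ≠ 0) :
    ∃ g : ℤ, 0 < g ∧ (∀ i, g ≤ |c i|) ∧ ∃ k : Fin 4 → ℤ, ∑ i, c i * k i = g := by
  set g1 : ℤ := ((Int.gcd (c 0) (c 1) : ℕ) : ℤ) with hg1
  set g2 : ℤ := ((Int.gcd (c 2) (c 3) : ℕ) : ℤ) with hg2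
  set g : ℤ := ((Int.gcd g1 g2 : ℕ) : ℤ) with hg
  have e1 : g1 = c 0 * Int.gcdA (c 0) (c 1) + c 1 * Int.gcdB (c 0) (c 1) :=
    Int.gcd_eq_gcd_ab _ _
  have e2 : g2 = c 2 * Int.gcdA (c 2) (c 3) + c 3 * Int.gcdB (c 2) (c 3) :=
    Int.gcd_eq_gcd_ab _ _
  have e3 : g = g1 * Int.gcdA g1 g2 + g2 * Int.gcdB g1 g2 := Int.gcd_eq_gcd_ab _ _
  have d1 : g ∣ g1 := Int.gcd_dvd_left _ _
  have d2 : g ∣ g2 := Int.gcd_dvd_right _ _
  have d3 : ∀ i, g ∣ c i := by
    intro i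
    fin_cases i
    · exact d1.trans (Int.gcd_dvd_left _ _)
    · exact d1.trans (Int.gcd_dvd_right _ _)
    · exact d2.trans (Int.gcd_dvd_left _ _)
    · exact d2.trans (Int.gcd_dvd_right _ _)
  have hgpos : 0 < g := by
    have h1 : 0 ≤ g := by positivity
    rcases h1.lt_or_eq with h2 | h2
    · exact h2
    · exfalso
      have := d3 0
      rw [← h2, zero_dvd_iff] at this
      exact h 0 this
  refine ⟨g, hgpos, fun i => Int.le_of_dvd (abs_pos.2 (h i)) ((dvd_abs _ _).2 (d3 i)),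
    ![Int.gcdA (c 0) (c 1) * Int.gcdA g1 g2, Int.gcdB (c 0) (c 1) * Int.gcdA g1 g2,
      Int.gcdA (c 2) (c 3) * Int.gcdB g1 g2, Int.gcdB (c 2) (c 3) * Int.gcdB g1 g2], ?_⟩
  rw [e3, Fin.sum_univ_four]
  simp only [Matrix.cons_val_zero, Matrix.cons_val_one, Matrix.cons_val_two, Matrix.cons_val_three,
    Matrix.head_cons, Matrix.tail_cons, Matrix.cons_val]
  linear_combination (-Int.gcdA g1 g2) * e1 - (Int.gcdB g1 g2) * e2

theorem align_aux (c : Fin 4 → ℤ) (hc : ∀ i, c i ≠ 0) (b w : Fin 4 → ℝ) (hw : ∀ i, 0 ≤ w i)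
    (H : ℝ) (hH : 0 < H) (hsum : H ≤ ∑ i, w i) :
    ∃ (x : Fin 4 → ℝ) (N : Fin 4 → ℤ), (∀ i, b i ≤ x i ∧ x i ≤ b i + w i) ∧
      ∑ i, (c i : ℝ) * (x i + N i * H) = 0 := by
  obtain ⟨g, hg, hgc, k, hk⟩ := exists_gcd4 c hc
  have hgR : (0 : ℝ) < g := by exact_mod_cast hg
  set lo : ℝ := ∑ i, (c i : ℝ) * (b i + if 0 < c i then 0 else w i) with hlo
  set V : ℝ := ∑ i, |(c i : ℝ)| * w i with hV
  have hVge : g * H ≤ V := by
    calc (g : ℝ) * H ≤ g * ∑ i, w i := by gcongr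
      _ = ∑ i, (g : ℝ) * w i := by rw [Finset.mul_sum]
      _ ≤ V := by
        apply Finset.sum_le_sum
        intro i _
        apply mul_le_mul_of_nonneg_right _ (hw i)
        rw [← Int.cast_abs]
        exact_mod_cast hgc i
  have hgH : 0 < g * H := mul_pos hgR hH
  have hVpos : 0 < V := lt_of_lt_of_le hgH hVge
  set N0 : ℤ := ⌈lo / (g * H)⌉ with hN0
  have h1 : lo ≤ N0 * (g * H) := by
    have := Int.le_ceil (lo / (g * H))
    rwa [div_le_iff₀ hgH] at this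
  have h2 : N0 * (g * H) ≤ lo + g * H := by
    have := (Int.ceil_lt_add_one (lo / (g * H))).le
    rw [← hN0] at this
    have h3 : (N0 : ℝ) - 1 ≤ lo / (g * H) := by linarith
    rw [le_div_iff₀ hgH] at h3
    linarith
  set θ : ℝ := (N0 * (g * H) - lo) / V with hθ
  have hθ0 : 0 ≤ θ := div_nonneg (by linarith) hVpos.le
  have hθ1 : θ ≤ 1 := by
    rw [hθ, div_le_one hVpos]
    linarith
  have hθV : θ * V = N0 * (g * H) - lo := by
    rw [hθ, div_mul_cancel₀ _ hVpos.ne']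
  refine ⟨fun i => b i + w i * (if 0 < c i then θ else 1 - θ), fun i => -(N0 * k i), ?_, ?_⟩
  · intro i
    have hwi := hw i
    beta_reduce
    split_ifs
    · constructor
      · have := mul_nonneg hwi hθ0
        linarith
      · have := mul_le_mul_of_nonneg_left hθ1 hwi
        linarith
    · constructor
      · have := mul_nonneg hwi (sub_nonneg.2 hθ1)
        linarith
      · have : w i * (1 - θ) ≤ w i * 1 := mul_le_mul_of_nonneg_left (by linarith) hwi
        linarith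
  · have hterm : ∀ i, (c i : ℝ) * (b i + w i * (if 0 < c i then θ else 1 - θ) +
        ((-(N0 * k i) : ℤ) : ℝ) * H) =
        (c i : ℝ) * (b i + if 0 < c i then 0 else w i) + θ * (|(c i : ℝ)| * w i)
          - (N0 * H) * ((c i * k i : ℤ) : ℝ) := by
      intro i
      push_cast
      by_cases h : 0 < c i
      · have hR : (0 : ℝ) < c i := by exact_mod_cast h
        rw [if_pos h, if_pos h, abs_of_pos hR]
        ring
      · have hR : (c i : ℝ) ≤ 0 := by exact_mod_cast not_lt.1 h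
        rw [if_neg h, if_neg h, abs_of_nonpos hR]
        ring
    simp only [hterm]
    rw [Finset.sum_sub_distrib, Finset.sum_add_distrib, ← Finset.mul_sum, ← Finset.mul_sum,
      ← Int.cast_sum, hk, ← hlo, ← hV, hθV]
    ring

/-- The alignment lemma. -/
theorem align (m n : Fin 4 → ℤ) (hm0 : Even (m 0)) (hn0 : Even (n 0)) (hm1 : Odd (m 1))
    (hn1 : Even (n 1)) (hm2 : Even (m 2)) (hn2 : Odd (n 2)) (hm3 : Odd (m 3)) (hn3 : Odd (n 3))
    (a b : Fin 4 → ℝ) (H : ℝ) (hH : 0 < H) (h1 : ∀ i, b i - a i ≤ H)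
    (h2 : ∑ i, (b i - a i) ≤ 3 * H) :
    ∃ v τ₁ τ₂ : ℝ, ∀ i, ∀ k : ℤ, ¬ (a i < v + m i * τ₁ + n i * τ₂ + k * H ∧
      v + m i * τ₁ + n i * τ₂ + k * H < b i) := by
  -- the affine dependency
  set D3 : ℤ := (m 1 - m 0) * (n 2 - n 0) - (m 2 - m 0) * (n 1 - n 0) with hD3
  set D1 : ℤ := -((m 3 - m 0) * (n 2 - n 0) - (m 2 - m 0) * (n 3 - n 0)) with hD1
  set D2 : ℤ := -((m 1 - m 0) * (n 3 - n 0) - (m 3 - m 0) * (n 1 - n 0)) with hD2
  have o3 : Odd D3 := by
    rw [hD3]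
    have e1 : Odd (m 1 - m 0) := hm1.sub_even hm0
    have e2 : Odd (n 2 - n 0) := hn2.sub_even hn0
    have e3 : Even (m 2 - m 0) := hm2.sub hm0
    exact (e1.mul e2).sub_even (e3.mul_right _)
  have o1 : Odd D1 := by
    rw [hD1]
    have e1 : Odd (m 3 - m 0) := hm3.sub_even hm0
    have e2 : Odd (n 2 - n 0) := hn2.sub_even hn0
    have e3 : Even (m 2 - m 0) := hm2.sub hm0
    exact ((e1.mul e2).sub_even (e3.mul_right _)).neg
  have o2 : Odd D2 := by
    rw [hD2]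
    have e1 : Odd (m 1 - m 0) := hm1.sub_even hm0
    have e2 : Odd (n 3 - n 0) := hn3.sub_even hn0
    have e3 : Even (n 1 - n 0) := hn1.sub hn0
    exact ((e1.mul e2).sub_even (e3.mul_left _)).neg
  have o0 : Odd (-(D1 + D2 + D3)) := ((o1.add_odd o2).add_odd o3).neg
  have hne : ∀ i, (![-(D1 + D2 + D3), D1, D2, D3] : Fin 4 → ℤ) i ≠ 0 := by
    intro i h
    have hodd : ∀ z : ℤ, Odd z → z ≠ 0 := by
      rintro z hz rfl
      exact absurd hz (by decide)
    fin_cases i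
    · exact hodd _ o0 h
    · exact hodd _ o1 h
    · exact hodd _ o2 h
    · exact hodd _ o3 h
  obtain ⟨x, N, hx, hsum⟩ := align_aux _ hne b (fun i => H - (b i - a i))
    (fun i => by linarith [h1 i]) H hH (by
      simp only [Finset.sum_sub_distrib, Finset.sum_const, Finset.card_univ, Fintype.card_fin,
        nsmul_eq_mul] at h2 ⊢
      push_cast
      linarith)
  set X : Fin 4 → ℝ := fun i => x i + N i * H with hX
  have hsum' : -((D1 : ℝ) + D2 + D3) * X 0 + D1 * X 1 + D2 * X 2 + D3 * X 3 = 0 := by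
    have := hsum
    rw [Fin.sum_univ_four] at this
    simp only [Matrix.cons_val_zero, Matrix.cons_val_one, Matrix.cons_val] at this
    push_cast at this
    simpa [hX] using this
  have hD3R : (D3 : ℝ) ≠ 0 := by
    have := hne 3
    simp only [Matrix.cons_val] at this
    exact_mod_cast this
  -- solve for the affine function
  set τ₁ : ℝ := ((X 1 - X 0) * (n 2 - n 0) - (X 2 - X 0) * (n 1 - n 0)) / D3 with hτ₁
  set τ₂ : ℝ := ((m 1 - m 0) * (X 2 - X 0) - (m 2 - m 0) * (X 1 - X 0)) / D3 with hτ₂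
  have g1 : D3 * τ₁ = (X 1 - X 0) * (n 2 - n 0) - (X 2 - X 0) * (n 1 - n 0) := by
    rw [hτ₁, mul_div_cancel₀ _ hD3R]
  have g2 : D3 * τ₂ = (m 1 - m 0) * (X 2 - X 0) - (m 2 - m 0) * (X 1 - X 0) := by
    rw [hτ₂, mul_div_cancel₀ _ hD3R]
  have cD3 : (D3 : ℝ) = (m 1 - m 0) * (n 2 - n 0) - (m 2 - m 0) * (n 1 - n 0) := by
    rw [hD3]; push_cast; ring
  have cD1 : (D1 : ℝ) = -((m 3 - m 0) * (n 2 - n 0) - (m 2 - m 0) * (n 3 - n 0)) := by
    rw [hD1]; push_cast; ring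
  have cD2 : (D2 : ℝ) = -((m 1 - m 0) * (n 3 - n 0) - (m 3 - m 0) * (n 1 - n 0)) := by
    rw [hD2]; push_cast; ring
  have hval : ∀ i, X 0 - m 0 * τ₁ - n 0 * τ₂ + m i * τ₁ + n i * τ₂ = X i := by
    intro i
    apply mul_left_cancel₀ hD3R
    have e : (D3 : ℝ) * (X 0 - m 0 * τ₁ - n 0 * τ₂ + m i * τ₁ + n i * τ₂) =
        D3 * X 0 + (m i - m 0) * (D3 * τ₁) + (n i - n 0) * (D3 * τ₂) := by ring
    rw [e, g1, g2]
    fin_cases i
    · simp only [Fin.zero_eta, Fin.mk_one, Fin.reduceFinMk]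
      ring
    · simp only [Fin.zero_eta, Fin.mk_one, Fin.reduceFinMk]
      rw [cD3]
      ring
    · simp only [Fin.zero_eta, Fin.mk_one, Fin.reduceFinMk]
      rw [cD3]
      ring
    · simp only [Fin.zero_eta, Fin.mk_one, Fin.reduceFinMk]
      have := hsum'
      rw [cD1, cD2] at this
      linear_combination (-1 : ℝ) * this
  refine ⟨X 0 - m 0 * τ₁ - n 0 * τ₂, τ₁, τ₂, ?_⟩
  intro i k
  rw [hval i]
  rintro ⟨ha, hb⟩
  have hxi := hx i
  simp only [hX] at ha hb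
  have e : x i + N i * H + k * H = x i + ((N i + k : ℤ) : ℝ) * H := by push_cast; ring
  rw [e] at ha hb
  rcases le_or_gt 0 (N i + k) with h | h
  · have h3 : (0 : ℝ) ≤ ((N i + k : ℤ) : ℝ) := by exact_mod_cast h
    have := mul_nonneg h3 hH.le
    linarith [hxi.1]
  · have h3 : ((N i + k : ℤ) : ℝ) ≤ -1 := by
      have : N i + k ≤ -1 := by omega
      exact_mod_cast this
    have := mul_le_mul_of_nonneg_right h3 hH.le
    linarith [hxi.2]

end Pool.Agent.Helper59.Pack
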