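import Mathlib

/-!
# Averaging over a planar torus
-/

set_option autoImplicit false
namespace Pool.Agent.Helper59.Pack
open MeasureTheory
open scoped ENNReal

/-- The plane. -/
abbrev P2 : Type := Fin 2 → ℝ

/-- The determinant of two planar vectors. -/
def det2 (s t : P2) : ℝ := s 0 * t 1 - s 1 * t 0

theorem exists_tsum_lt_one {b : Module.Basis (Fin 2) ℝ P2} {f : P2 → ℝ≥0∞}
    (hf : Measurable f) (h : ∫⁻ x, f x < volume (ZSpan.fundamentalDomain b)) :
    ∃ x, ∑' g : Submodule.span ℤ (Set.range b), f ((g : P2) + x) < 1 := by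
  by_contra hcon
  push Not at hcon
  have hF := ZSpan.isAddFundamentalDomain b (volume : Measure P2)
  have : Countable (Submodule.span ℤ (Set.range b)) := inferInstance
  have : VAddInvariantMeasure (Submodule.span ℤ (Set.range b)) P2 volume := by
    change VAddInvariantMeasure (Submodule.span ℤ (Set.range b)).toAddSubgroup P2 volume
    infer_instance
  have h1 := hF.lintegral_eq_tsum'' f
  have h2 : ∑' g : Submodule.span ℤ (Set.range b), ∫⁻ x in ZSpan.fundamentalDomain b, f (g +ᵥ x) =
      ∫⁻ x in ZSpan.fundamentalDomain b, ∑' g : Submodule.span ℤ (Set.range b), f (g +ᵥ x) := by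
    rw [lintegral_tsum]
    intro g
    have : Measurable fun x : P2 => f ((g : P2) + x) := hf.comp (measurable_const_add _)
    exact this.aemeasurable
  have h3 : volume (ZSpan.fundamentalDomain b) ≤
      ∫⁻ x in ZSpan.fundamentalDomain b, ∑' g : Submodule.span ℤ (Set.range b), f (g +ᵥ x) := by
    calc volume (ZSpan.fundamentalDomain b) = ∫⁻ _ in ZSpan.fundamentalDomain b, 1 := by simp
      _ ≤ _ := lintegral_mono (fun x => hcon x)
  rw [h1, h2] at h
  exact absurd h (not_lt.2 h3)

/-- A basis from two independent vectors. -/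
theorem exists_basis2 (t₁ t₂ : P2) (h : det2 t₁ t₂ ≠ 0) :
    ∃ b : Module.Basis (Fin 2) ℝ P2, b 0 = t₁ ∧ b 1 = t₂ := by
  have hdet : (Matrix.of ![t₁, t₂]).det ≠ 0 := by
    rw [Matrix.det_fin_two]
    simpa [det2, mul_comm] using h
  have hli : LinearIndependent ℝ ![t₁, t₂] := by
    exact Matrix.linearIndependent_rows_of_det_ne_zero hdet
  refine ⟨basisOfLinearIndependentOfCardEqFinrank hli (by simp), ?_, ?_⟩ <;> simp

theorem exists_good_point (t₁ t₂ : P2) {D : ℝ} (hD : det2 t₁ t₂ = D) (hD0 : 0 < D)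
    {f : P2 → ℝ≥0∞} (hf : Measurable f) (h : 4 * ∫⁻ x, f x < ENNReal.ofReal D) :
    ∃ w : P2, ∀ m n : Fin 4 → ℤ, Function.Injective (fun i => (m i, n i)) →
      ∑ i, f ((1 / 2 : ℝ) • (w + (m i : ℝ) • t₁ + (n i : ℝ) • t₂)) < 1 := by
  have hdet : det2 ((1 / 2 : ℝ) • t₁) ((1 / 2 : ℝ) • t₂) = D / 4 := by
    rw [← hD]
    simp only [det2, Pi.smul_apply, smul_eq_mul]
    ring
  obtain ⟨b, hb0, hb1⟩ := exists_basis2 ((1 / 2 : ℝ) • t₁) ((1 / 2 : ℝ) • t₂)
    (by rw [hdet]; positivity)
  have hvol : volume (ZSpan.fundamentalDomain b) = ENNReal.ofReal (D / 4) := by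
    rw [ZSpan.volume_fundamentalDomain]
    congr 1
    rw [Matrix.det_fin_two]
    simp only [Matrix.of_apply, hb0, hb1]
    simp only [det2] at hdet
    rw [hdet, abs_of_pos (by positivity)]
  have hlt : ∫⁻ x, f x < volume (ZSpan.fundamentalDomain b) := by
    rw [hvol, ENNReal.ofReal_div_of_pos (by norm_num), ENNReal.lt_div_iff_mul_lt
      (by simp) (by simp), mul_comm]
    simpa using h
  obtain ⟨x, hx⟩ := exists_tsum_lt_one hf hlt
  refine ⟨(2 : ℝ) • x, ?_⟩
  intro m n hinj
  let g : Fin 4 → Submodule.span ℤ (Set.range b) := fun i =>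
    ⟨m i • b 0 + n i • b 1, Submodule.add_mem _
      (Submodule.smul_mem _ _ (Submodule.subset_span ⟨0, rfl⟩))
      (Submodule.smul_mem _ _ (Submodule.subset_span ⟨1, rfl⟩))⟩
  have hg : Function.Injective g := by
    intro i j hij
    apply hinj
    have h1 : m i • b 0 + n i • b 1 = m j • b 0 + n j • b 1 := congrArg Subtype.val hij
    have h2 : ((m i : ℝ) - m j) • b 0 + ((n i : ℝ) - n j) • b 1 = 0 := by
      simp only [← Int.cast_smul_eq_zsmul ℝ] at h1
      rw [sub_smul, sub_smul]
      rw [← sub_eq_zero] at h1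
      rw [← h1]
      abel
    have h3 : LinearIndependent ℝ b := b.linearIndependent
    have h4 := Fintype.linearIndependent_iff.1 h3 ![(m i : ℝ) - m j, (n i : ℝ) - n j] (by
      rw [Fin.sum_univ_two]
      simpa using h2)
    have h5 := h4 0
    have h6 := h4 1
    simp only [Matrix.cons_val_zero, Matrix.cons_val_one] at h5 h6
    have h7 : m i = m j := by exact_mod_cast sub_eq_zero.1 h5
    have h8 : n i = n j := by exact_mod_cast sub_eq_zero.1 h6
    simp only [h7, h8]
  refine lt_of_le_of_lt ?_ hx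
  calc ∑ i, f ((1 / 2 : ℝ) • ((2 : ℝ) • x + (m i : ℝ) • t₁ + (n i : ℝ) • t₂))
      = ∑ i, f ((g i : P2) + x) := by
        refine Finset.sum_congr rfl (fun i _ => ?_)
        congr 1
        simp only [g, hb0, hb1, ← Int.cast_smul_eq_zsmul ℝ]
        simp only [smul_add, smul_smul]
        norm_num
        simp only [mul_comm ((m i : ℝ)), mul_comm ((n i : ℝ))]
        abel
    _ = ∑' i : Fin 4, f ((g i : P2) + x) := (tsum_fintype _).symm
    _ ≤ ∑' z : Submodule.span ℤ (Set.range b), f ((z : P2) + x) :=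
        ENNReal.tsum_comp_le_tsum_of_injective hg (fun z => f ((z : P2) + x))

end Pool.Agent.Helper59.Pack
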