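import Pool.Agent.Helper69.MD.Final
import Pool.Agent.Helper59.Pack.Align
import Pool.Agent.Helper59.Pack.Averaging

/-!
# Packings of a convex body in three-space with a vertical period
-/

set_option autoImplicit false
namespace Pool.Agent.Helper59.Pack
open MeasureTheory Metric
open Pool.Agent.Helper69.MD
open scoped ENNReal Pointwise

/-- The point over `y` at height `t`. -/
noncomputable def mk3 (y : P2) (t : ℝ) : E3 := !₂[y 0, y 1, t]

/-- The projection to the plane. -/
def pr (x : E3) : P2 := ![x 0, x 1]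

@[simp] theorem mk3_zero (y : P2) (t : ℝ) : mk3 y t 0 = y 0 := rfl
@[simp] theorem mk3_one (y : P2) (t : ℝ) : mk3 y t 1 = y 1 := rfl
@[simp] theorem mk3_two (y : P2) (t : ℝ) : mk3 y t 2 = t := rfl
@[simp] theorem pr_zero (x : E3) : pr x 0 = x 0 := rfl
@[simp] theorem pr_one (x : E3) : pr x 1 = x 1 := rfl

theorem E3_ext {x y : E3} (h0 : x 0 = y 0) (h1 : x 1 = y 1) (h2 : x 2 = y 2) : x = y := by
  ext i
  fin_cases i
  · exact h0
  · exact h1
  · exact h2

theorem P2_ext {x y : P2} (h0 : x 0 = y 0) (h1 : x 1 = y 1) : x = y := by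
  ext i
  fin_cases i
  · exact h0
  · exact h1

@[simp] theorem pr_mk3 (y : P2) (t : ℝ) : pr (mk3 y t) = y := P2_ext rfl rfl

theorem mk3_pr (x : E3) : mk3 (pr x) (x 2) = x := E3_ext rfl rfl rfl

theorem continuous_mk3 (y : P2) : Continuous (mk3 y) := by
  unfold mk3
  fun_prop

/-- The vertical section of `K` over `y`. -/
def sec (K : Set E3) (y : P2) : Set ℝ := {t | mk3 y t ∈ K}

theorem sec_closed {K : Set E3} (hK : IsConvexBody K) (y : P2) : IsClosed (sec K y) :=
  hK.isCompact.isClosed.preimage (continuous_mk3 y)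

theorem sec_bounded {K : Set E3} (hK : IsConvexBody K) (y : P2) :
    Bornology.IsBounded (sec K y) := by
  obtain ⟨R, hR⟩ := hK.isCompact.isBounded.subset_closedBall (0 : E3)
  refine (Metric.isBounded_closedBall (x := (0 : ℝ)) (r := R)).subset ?_
  intro t ht
  have h1 := hR ht
  rw [mem_closedBall_zero_iff] at h1 ⊢
  calc ‖t‖ = ‖(mk3 y t) 2‖ := by simp
    _ ≤ ‖mk3 y t‖ := PiLp.norm_apply_le _ _
    _ ≤ R := h1

theorem sec_convex {K : Set E3} (hK : IsConvexBody K) (y : P2) : Convex ℝ (sec K y) := by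
  intro s hs t ht a b ha hb hab
  have h1 := hK.convex hs ht ha hb hab
  have e : a • mk3 y s + b • mk3 y t = mk3 y (a • s + b • t) := by
    apply E3_ext
    · simp only [PiLp.add_apply, PiLp.smul_apply, mk3_zero, smul_eq_mul]
      rw [← add_mul, hab, one_mul]
    · simp only [PiLp.add_apply, PiLp.smul_apply, mk3_one, smul_eq_mul]
      rw [← add_mul, hab, one_mul]
    · simp
  rw [e] at h1
  exact h1

/-- Sections are compact intervals. -/
theorem sec_spec {K : Set E3} (hK : IsConvexBody K) (y : P2) :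
    ∃ a b : ℝ, a ≤ b ∧ volume (sec K y) = ENNReal.ofReal (b - a) ∧
      ∀ x ∈ interior K, pr x = y → a < x 2 ∧ x 2 < b := by
  by_cases hne : (sec K y).Nonempty
  · have hcomp : IsCompact (sec K y) :=
      Metric.isCompact_of_isClosed_isBounded (sec_closed hK y) (sec_bounded hK y)
    have hord := (sec_convex hK y).ordConnected
    have hs : sec K y = Set.Icc (sInf (sec K y)) (sSup (sec K y)) := by
      apply Set.Subset.antisymm
      · intro t ht
        exact ⟨csInf_le hcomp.bddBelow ht, le_csSup hcomp.bddAbove ht⟩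
      · exact hord.out (hcomp.sInf_mem hne) (hcomp.sSup_mem hne)
    refine ⟨sInf (sec K y), sSup (sec K y), ?_, ?_, ?_⟩
    · obtain ⟨t, ht⟩ := hne
      exact (csInf_le hcomp.bddBelow ht).trans (le_csSup hcomp.bddAbove ht)
    · conv_lhs => rw [hs]
      rw [Real.volume_Icc]
    · intro x hx hpx
      have hopen : IsOpen (mk3 y ⁻¹' interior K) := isOpen_interior.preimage (continuous_mk3 y)
      have hmem : x 2 ∈ mk3 y ⁻¹' interior K := by
        rw [Set.mem_preimage, ← hpx, mk3_pr]
        exact hx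
      have hsub : mk3 y ⁻¹' interior K ⊆ sec K y := fun t ht => interior_subset (s := K) ht
      have h2 : x 2 ∈ interior (sec K y) := interior_mono hsub (by rwa [hopen.interior_eq])
      rw [hs, interior_Icc] at h2
      exact h2
  · refine ⟨0, 0, le_rfl, ?_, ?_⟩
    · rw [Set.not_nonempty_iff_eq_empty.1 hne]
      simp
    · intro x hx hpx
      exfalso
      apply hne
      refine ⟨x 2, ?_⟩
      change mk3 y (x 2) ∈ K
      rw [← hpx, mk3_pr]
      exact interior_subset hx

theorem sec_finite {K : Set E3} (hK : IsConvexBody K) (y : P2) : volume (sec K y) ≠ ⊤ := by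
  obtain ⟨a, b, -, h, -⟩ := sec_spec hK y
  rw [h]
  exact ENNReal.ofReal_ne_top

/-- The length of the vertical section over `y`. -/
noncomputable def len (K : Set E3) (y : P2) : ℝ := (volume (sec K y)).toReal

theorem len_nonneg (K : Set E3) (y : P2) : 0 ≤ len K y := ENNReal.toReal_nonneg

theorem len_spec {K : Set E3} (hK : IsConvexBody K) (y : P2) :
    ∃ a b : ℝ, a ≤ b ∧ len K y = b - a ∧ ∀ x ∈ interior K, pr x = y → a < x 2 ∧ x 2 < b := by
  obtain ⟨a, b, h1, h2, h3⟩ := sec_spec hK y
  refine ⟨a, b, h1, ?_, h3⟩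
  rw [len, h2, ENNReal.toReal_ofReal (by linarith)]

/-! ## The lattice -/

/-- The data of a lattice with a vertical period. -/
structure LatData where
  /-- first planar generator -/
  t₁ : P2
  /-- second planar generator -/
  t₂ : P2
  /-- height of the first generator -/
  τ₁ : ℝ
  /-- height of the second generator -/
  τ₂ : ℝ
  /-- the vertical period -/
  H : ℝ
  det_pos : 0 < det2 t₁ t₂
  H_pos : 0 < H

theorem exists_basis3 (d : LatData) : ∃ b : Module.Basis (Fin 3) ℝ E3,
    b 0 = mk3 d.t₁ d.τ₁ ∧ b 1 = mk3 d.t₂ d.τ₂ ∧ b 2 = mk3 0 d.H := by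
  have hli : LinearIndependent ℝ ![mk3 d.t₁ d.τ₁, mk3 d.t₂ d.τ₂, mk3 0 d.H] := by
    rw [Fintype.linearIndependent_iff]
    intro g hg
    rw [Fin.sum_univ_three] at hg
    simp only [Matrix.cons_val_zero, Matrix.cons_val_one, Matrix.cons_val] at hg
    have h0 := congrArg (fun x : E3 => x 0) hg
    have h1 := congrArg (fun x : E3 => x 1) hg
    have h2 := congrArg (fun x : E3 => x 2) hg
    simp only [PiLp.add_apply, PiLp.smul_apply, mk3_zero, mk3_one, mk3_two, smul_eq_mul,
      PiLp.zero_apply, Pi.zero_apply, mul_zero, add_zero] at h0 h1 h2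
    have hd := d.det_pos
    rw [det2] at hd
    have g0 : g 0 = 0 := by
      have : g 0 * (d.t₁ 0 * d.t₂ 1 - d.t₁ 1 * d.t₂ 0) = 0 := by
        linear_combination d.t₂ 1 * h0 - d.t₂ 0 * h1
      rcases mul_eq_zero.1 this with h | h
      · exact h
      · exact absurd h hd.ne'
    have g1 : g 1 = 0 := by
      have : g 1 * (d.t₁ 0 * d.t₂ 1 - d.t₁ 1 * d.t₂ 0) = 0 := by
        linear_combination d.t₁ 0 * h1 - d.t₁ 1 * h0
      rcases mul_eq_zero.1 this with h | h
      · exact h
      · exact absurd h hd.ne'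
    have g2 : g 2 = 0 := by
      rw [g0, g1] at h2
      have : g 2 * d.H = 0 := by linarith
      rcases mul_eq_zero.1 this with h | h
      · exact h
      · exact absurd h d.H_pos.ne'
    intro i
    fin_cases i
    · exact g0
    · exact g1
    · exact g2
  refine ⟨basisOfLinearIndependentOfCardEqFinrank hli (by simp), ?_, ?_, ?_⟩ <;> simp

/-- The basis of the lattice. -/
noncomputable def LatData.basis (d : LatData) : Module.Basis (Fin 3) ℝ E3 :=
  Classical.choose (exists_basis3 d)

theorem LatData.basis_zero (d : LatData) : d.basis 0 = mk3 d.t₁ d.τ₁ :=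
  (Classical.choose_spec (exists_basis3 d)).1

theorem LatData.basis_one (d : LatData) : d.basis 1 = mk3 d.t₂ d.τ₂ :=
  (Classical.choose_spec (exists_basis3 d)).2.1

theorem LatData.basis_two (d : LatData) : d.basis 2 = mk3 0 d.H :=
  (Classical.choose_spec (exists_basis3 d)).2.2

/-- The lattice. -/
noncomputable def LatData.lat (d : LatData) : Submodule ℤ E3 :=
  Submodule.span ℤ (Set.range d.basis)

noncomputable instance (d : LatData) : DiscreteTopology d.lat := by
  unfold LatData.lat
  infer_instance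

noncomputable instance (d : LatData) : IsZLattice ℝ d.lat := by
  unfold LatData.lat
  infer_instance

theorem vol_std : volume (ZSpan.fundamentalDomain
    (EuclideanSpace.basisFun (Fin 3) ℝ).toBasis) = 1 := by
  rw [measure_congr (ZSpan.fundamentalDomain_ae_parallelepiped _ volume)]
  have := (EuclideanSpace.basisFun (Fin 3) ℝ).volume_parallelepiped
  simpa using this

theorem LatData.covolume (d : LatData) : ZLattice.covolume d.lat = d.H * det2 d.t₁ d.t₂ := by
  have h1 : ZLattice.covolume d.lat = volume.real (ZSpan.fundamentalDomain d.basis) :=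
    ZLattice.covolume_eq_measure_fundamentalDomain d.lat volume
      (ZSpan.isAddFundamentalDomain d.basis volume)
  rw [h1, ZSpan.measureReal_fundamentalDomain d.basis volume
    (EuclideanSpace.basisFun (Fin 3) ℝ).toBasis]
  have h2 : volume.real (ZSpan.fundamentalDomain
      (EuclideanSpace.basisFun (Fin 3) ℝ).toBasis) = 1 := by
    rw [Measure.real, vol_std]; rfl
  rw [h2, mul_one, Module.Basis.det_apply, Matrix.det_fin_three]
  simp only [Module.Basis.toMatrix_apply, OrthonormalBasis.coe_toBasis_repr_apply,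
    EuclideanSpace.basisFun_repr, d.basis_zero, d.basis_one, d.basis_two, mk3_zero, mk3_one,
    mk3_two, Pi.zero_apply]
  have hpos : 0 < d.H * det2 d.t₁ d.t₂ := mul_pos d.H_pos d.det_pos
  rw [← abs_of_pos hpos]
  congr 1
  rw [det2]
  ring

theorem LatData.mem (d : LatData) {u : E3} (hu : u ∈ d.lat) :
    ∃ m n k : ℤ, pr u = (m : ℝ) • d.t₁ + (n : ℝ) • d.t₂ ∧
      u 2 = m * d.τ₁ + n * d.τ₂ + k * d.H := by
  unfold LatData.lat at hu
  rw [Submodule.mem_span_range_iff_exists_fun] at hu
  obtain ⟨c, hc⟩ := hu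
  rw [Fin.sum_univ_three, d.basis_zero, d.basis_one, d.basis_two] at hc
  simp only [← Int.cast_smul_eq_zsmul ℝ] at hc
  refine ⟨c 0, c 1, c 2, ?_, ?_⟩
  · rw [← hc]
    apply P2_ext
    · simp
    · simp
  · rw [← hc]
    simp

/-- The planar lattice is a packing lattice for the projection of `K`. -/
def PlanarPacking (K : Set E3) (t₁ t₂ : P2) : Prop :=
  ∀ m n : ℤ, (m ≠ 0 ∨ n ≠ 0) → ∀ x ∈ interior K, ∀ y ∈ interior K,
    pr x - pr y ≠ (m : ℝ) • t₁ + (n : ℝ) • t₂

theorem noOverlap {K : Set E3} (hK : IsConvexBody K) (d : LatData)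
    (hp : PlanarPacking K d.t₁ d.t₂) (hlen : ∀ y, len K y ≤ d.H) {u : E3} (hu : u ∈ d.lat)
    (hu0 : u ≠ 0) {x y : E3} (hx : x ∈ interior K) (hy : y ∈ interior K) : x - y ≠ u := by
  intro hxy
  obtain ⟨m, n, k, h1, h2⟩ := d.mem hu
  have h3 : pr x - pr y = (m : ℝ) • d.t₁ + (n : ℝ) • d.t₂ := by
    rw [← h1, ← hxy]
    apply P2_ext
    · simp
    · simp
  by_cases hmn : m ≠ 0 ∨ n ≠ 0
  · exact hp m n hmn x hx y hy h3
  · push Not at hmn
    obtain ⟨rfl, rfl⟩ := hmn
    have h4 : pr x = pr y := by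
      rw [← sub_eq_zero, h3]; simp
    obtain ⟨a, b, -, hlab, hab⟩ := len_spec hK (pr y)
    have hx2 := hab x hx h4
    have hy2 := hab y hy rfl
    have h5 : u 2 = k * d.H := by rw [h2]; push_cast; ring
    have h6 : x 2 - y 2 = k * d.H := by
      rw [← h5, ← hxy]; simp
    have h7 : b - a ≤ d.H := by rw [← hlab]; exact hlen _
    have h8 : |(k : ℝ) * d.H| < d.H := by
      rw [← h6, abs_lt]
      constructor <;> linarith [hx2.1, hx2.2, hy2.1, hy2.2]
    have hk : k = 0 := by
      by_contra hk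
      have h9 : (1 : ℝ) ≤ |(k : ℝ)| := by exact_mod_cast Int.one_le_abs hk
      rw [abs_mul, abs_of_pos d.H_pos] at h8
      have := mul_le_mul_of_nonneg_right h9 d.H_pos.le
      linarith
    apply hu0
    rw [hk] at h5
    apply E3_ext
    · have := congrFun h1 0
      simpa using this
    · have := congrFun h1 1
      simpa using this
    · rw [h5]; simp

theorem deltaL_ge {K : Set E3} (hK : IsConvexBody K) (d : LatData)
    (hp : PlanarPacking K d.t₁ d.t₂) (hlen : ∀ y, len K y ≤ d.H) :
    volume K / ENNReal.ofReal (d.H * det2 d.t₁ d.t₂) ≤ deltaL K := by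
  rw [deltaL_eq hK, ← d.covolume]
  have h : Conf K sU d.lat (fun _ => (0 : E3)) := by
    rintro ⟨⟩ ⟨⟩ u hu hne z h1 h2
    have hu0 : u ≠ 0 := by
      rcases hne with h | h
      · exact absurd rfl h
      · exact h
    have h1' : z ∈ interior K := by simpa [sU] using h1
    have h2' : z - u ∈ interior K := by simpa [sU] using h2
    exact noOverlap hK d hp hlen hu hu0 h1' h2' (by abel)
  have := le_dg d.lat h
  simpa using this

theorem deltaLstar_ge {K : Set E3} (hK : IsConvexBody K) {t₁ t₂ : P2} {D H : ℝ}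
    (hD : det2 t₁ t₂ = D) (hD0 : 0 < D) (hH : 0 < H) (hp : PlanarPacking K t₁ t₂)
    (hlen : ∀ y, len K y ≤ H)
    (hgood : ∃ w : P2, ∀ m n : Fin 4 → ℤ, Function.Injective (fun i => (m i, n i)) →
      (∀ i, 2 * len K ((1 / 2 : ℝ) • (w + (m i : ℝ) • t₁ + (n i : ℝ) • t₂)) ≤ H) ∧
      2 * ∑ i, len K ((1 / 2 : ℝ) • (w + (m i : ℝ) • t₁ + (n i : ℝ) • t₂)) ≤ 3 * H) :
    2 * volume K / ENNReal.ofReal (H * D) ≤ deltaLstar K := by
  classical
  obtain ⟨w, hw⟩ := hgood
  -- the centre for a lattice vector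
  set cen : ℤ → ℤ → P2 := fun m n => (1 / 2 : ℝ) • (w + (m : ℝ) • t₁ + (n : ℝ) • t₂) with hcen
  -- choice of the representatives
  have hch : ∀ p q : ℤ, ∃ mn : ℤ × ℤ, Even (mn.1 - p) ∧ Even (mn.2 - q) ∧
      ∀ m n : ℤ, Even (m - p) → Even (n - q) → (∃ x ∈ interior K, pr x = cen m n) →
        m = mn.1 ∧ n = mn.2 := by
    intro p q
    by_cases hex : ∃ m n : ℤ, Even (m - p) ∧ Even (n - q) ∧ ∃ x ∈ interior K, pr x = cen m n
    · obtain ⟨m₀, n₀, h1, h2, x₀, hx₀, hx₀'⟩ := hex
      refine ⟨(m₀, n₀), h1, h2, ?_⟩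
      rintro m n h3 h4 ⟨x, hx, hx'⟩
      by_contra hcon
      obtain ⟨m', hm'⟩ : Even (m - m₀) := by
        have := h3.sub h1
        rwa [show m - p - (m₀ - p) = m - m₀ by ring] at this
      obtain ⟨n', hn'⟩ : Even (n - n₀) := by
        have := h4.sub h2
        rwa [show n - q - (n₀ - q) = n - n₀ by ring] at this
      refine hp m' n' ?_ x hx x₀ hx₀ ?_
      · by_contra hc
        push Not at hc
        obtain ⟨rfl, rfl⟩ := hc
        apply hcon
        exact ⟨by linarith, by linarith⟩
      · rw [hx', hx₀']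
        have e1 : (m : ℝ) = m₀ + (m' + m') := by
          have : m = m₀ + (m' + m') := by linarith
          exact_mod_cast this
        have e2 : (n : ℝ) = n₀ + (n' + n') := by
          have : n = n₀ + (n' + n') := by linarith
          exact_mod_cast this
        simp only [hcen]
        rw [e1, e2]
        module
    · refine ⟨(p, q), by simp, by simp, ?_⟩
      intro m n h3 h4 h5
      exact absurd ⟨m, n, h3, h4, h5⟩ hex
  choose f hf1 hf2 hf3 using hch
  let pp : Fin 4 → ℤ := ![0, 1, 0, 1]
  let qq : Fin 4 → ℤ := ![0, 0, 1, 1]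
  let m : Fin 4 → ℤ := fun i => (f (pp i) (qq i)).1
  let n : Fin 4 → ℤ := fun i => (f (pp i) (qq i)).2
  have hm : ∀ i, Even (m i - pp i) := fun i => hf1 _ _
  have hn : ∀ i, Even (n i - qq i) := fun i => hf2 _ _
  have hm0 : Even (m 0) := by simpa [pp] using hm 0
  have hm1 : Odd (m 1) := by
    have h := (hm 1).add_odd odd_one
    rwa [show m 1 - pp 1 + 1 = m 1 by simp [pp]] at h
  have hm2 : Even (m 2) := by simpa [pp] using hm 2
  have hm3 : Odd (m 3) := by
    have h := (hm 3).add_odd odd_one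
    rwa [show m 3 - pp 3 + 1 = m 3 by simp [pp]] at h
  have hn0 : Even (n 0) := by simpa [qq] using hn 0
  have hn1 : Even (n 1) := by simpa [qq] using hn 1
  have hn2 : Odd (n 2) := by
    have h := (hn 2).add_odd odd_one
    rwa [show n 2 - qq 2 + 1 = n 2 by simp [qq]] at h
  have hn3 : Odd (n 3) := by
    have h := (hn 3).add_odd odd_one
    rwa [show n 3 - qq 3 + 1 = n 3 by simp [qq]] at h
  have hinj : Function.Injective (fun i => (m i, n i)) := by
    have hne : ∀ {x y : ℤ}, Even x → Odd y → x ≠ y := by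
      rintro x y hx hy rfl
      exact (Int.not_even_iff_odd.2 hy) hx
    intro i j hij
    simp only [Prod.mk.injEq] at hij
    obtain ⟨h1, h2⟩ := hij
    fin_cases i <;> fin_cases j <;> first
      | rfl
      | (exfalso; simp only [Fin.zero_eta, Fin.mk_one, Fin.reduceFinMk] at h1 h2
         first
          | exact hne hm0 hm1 h1 | exact hne hm0 hm3 h1 | exact hne hm2 hm1 h1
          | exact hne hm2 hm3 h1 | exact hne hm0 hm1 h1.symm | exact hne hm0 hm3 h1.symm
          | exact hne hm2 hm1 h1.symm | exact hne hm2 hm3 h1.symm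
          | exact hne hn0 hn2 h2 | exact hne hn0 hn3 h2 | exact hne hn1 hn2 h2
          | exact hne hn1 hn3 h2 | exact hne hn0 hn2 h2.symm | exact hne hn0 hn3 h2.symm
          | exact hne hn1 hn2 h2.symm | exact hne hn1 hn3 h2.symm)
  obtain ⟨hg1, hg2⟩ := hw m n hinj
  -- the sections over the four centres
  have hsec : ∀ i, ∃ ab : ℝ × ℝ, ab.1 ≤ ab.2 ∧ len K (cen (m i) (n i)) = ab.2 - ab.1 ∧
      ∀ x ∈ interior K, pr x = cen (m i) (n i) → ab.1 < x 2 ∧ x 2 < ab.2 := by
    intro i
    obtain ⟨a, b, h⟩ := len_spec hK (cen (m i) (n i))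
    exact ⟨(a, b), h⟩
  choose ab hab1 hab2 hab3 using hsec
  obtain ⟨v₃, τ₁, τ₂, hv⟩ := align m n hm0 hn0 hm1 hn1 hm2 hn2 hm3 hn3
    (fun i => 2 * (ab i).1) (fun i => 2 * (ab i).2) H hH
    (fun i => by
      have h1 := hg1 i
      have h2 := hab2 i
      simp only [hcen] at h2
      rw [h2] at h1
      linarith)
    (by
      have h1 : ∑ i, (2 * (ab i).2 - 2 * (ab i).1) = 2 * ∑ i, len K (cen (m i) (n i)) := by
        rw [Finset.mul_sum]
        refine Finset.sum_congr rfl (fun i _ => ?_)
        rw [hab2 i]; ring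
      rw [h1]
      exact hg2)
  let d : LatData := ⟨t₁, t₂, τ₁, τ₂, H, by rw [hD]; exact hD0, hH⟩
  have hcov : ZLattice.covolume d.lat = H * D := by
    rw [d.covolume]
    change H * det2 t₁ t₂ = H * D
    rw [hD]
  rw [deltaLstar_eq hK, ← hcov]
  have hconf : Conf K sB d.lat (fun b => if b then mk3 w v₃ else 0) := by
    -- the mixed case
    have hmix : ∀ u ∈ d.lat, ∀ x ∈ interior K, ∀ y ∈ interior K, x + y ≠ u + mk3 w v₃ := by
      intro u hu x hx y hy hxy
      obtain ⟨m', n', k, h1, h2⟩ := d.mem hu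
      -- the midpoint
      set z : E3 := (1 / 2 : ℝ) • x + (1 / 2 : ℝ) • y with hz
      have hzK : z ∈ interior K :=
        hK.convex.interior hx hy (by norm_num) (by norm_num) (by norm_num)
      have hz' : z = (1 / 2 : ℝ) • (u + mk3 w v₃) := by
        rw [hz, ← smul_add, hxy]
      have hprz : pr z = cen m' n' := by
        have h10 := congrFun h1 0
        have h11 := congrFun h1 1
        simp only [pr_zero, pr_one, Pi.add_apply, Pi.smul_apply, smul_eq_mul] at h10 h11
        change u 0 = _ * t₁ 0 + _ * t₂ 0 at h10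
        change u 1 = _ * t₁ 1 + _ * t₂ 1 at h11
        apply P2_ext
        · simp only [hcen, pr_zero, hz', PiLp.smul_apply, PiLp.add_apply, mk3_zero, Pi.smul_apply,
            Pi.add_apply, smul_eq_mul]
          rw [h10]; ring
        · simp only [hcen, pr_one, hz', PiLp.smul_apply, PiLp.add_apply, mk3_one, Pi.smul_apply,
            Pi.add_apply, smul_eq_mul]
          rw [h11]; ring
      have hz2 : 2 * z 2 = v₃ + m' * τ₁ + n' * τ₂ + k * H := by
        simp only [hz', PiLp.smul_apply, PiLp.add_apply, mk3_two, smul_eq_mul]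
        rw [h2]
        change 2 * (1 / 2 * (m' * τ₁ + n' * τ₂ + k * H + v₃)) = _
        ring
      -- the parity class
      obtain ⟨i, hi1, hi2⟩ : ∃ i : Fin 4, Even (m' - pp i) ∧ Even (n' - qq i) := by
        rcases Int.even_or_odd m' with h3 | h3 <;> rcases Int.even_or_odd n' with h4 | h4
        · exact ⟨0, by simpa [pp] using h3, by simpa [qq] using h4⟩
        · refine ⟨2, by simpa [pp] using h3, ?_⟩
          simpa [qq] using h4.sub_odd odd_one
        · refine ⟨1, ?_, by simpa [qq] using h4⟩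
          simpa [pp] using h3.sub_odd odd_one
        · refine ⟨3, ?_, ?_⟩
          · simpa [pp] using h3.sub_odd odd_one
          · simpa [qq] using h4.sub_odd odd_one
      obtain ⟨e1, e2⟩ := hf3 (pp i) (qq i) m' n' hi1 hi2 ⟨z, hzK, hprz⟩
      have e1' : m' = m i := e1
      have e2' : n' = n i := e2
      rw [e1', e2'] at hprz hz2
      have h5 := hab3 i z hzK hprz
      refine hv i k ⟨?_, ?_⟩
      · rw [← hz2]; linarith [h5.1]
      · rw [← hz2]; linarith [h5.2]
    intro i j u hu hne z h1 h2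
    cases i <;> cases j
    · have hu0 : u ≠ 0 := by simpa using hne
      have h1' : z ∈ interior K := by simpa [sB] using h1
      have h2' : z - u ∈ interior K := by simpa [sB] using h2
      exact noOverlap hK d hp hlen hu hu0 h1' h2' (by abel)
    · have h1' : z ∈ interior K := by simpa [sB] using h1
      have h2' : -(z - (u + mk3 w v₃)) ∈ interior K := by simpa [sB] using h2
      exact hmix u hu z h1' _ h2' (by abel)
    · have h1' : -(z - mk3 w v₃) ∈ interior K := by simpa [sB] using h1
      have h2' : z - u ∈ interior K := by simpa [sB] using h2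
      exact hmix (-u) (d.lat.neg_mem hu) _ h1' _ h2' (by abel)
    · have hu0 : u ≠ 0 := by simpa using hne
      have h1' : -(z - mk3 w v₃) ∈ interior K := by simpa [sB] using h1
      have h2' : -(z - (u + mk3 w v₃)) ∈ interior K := by simpa [sB] using h2
      exact noOverlap hK d hp hlen hu hu0 h2' h1' (by abel)
  have := le_dg d.lat hconf
  simpa using this

end Pool.Agent.Helper59.Pack
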