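import Pool.Agent.Helper59.Pack.Star
import Pool.Agent.Helper84.Tet.Vol

/-!
# The four minima
-/

set_option autoImplicit false
namespace Pool.Agent.Helper59.Pack
open MeasureTheory Metric Filter Topology
open Pool.Agent.Helper69.MD
open scoped ENNReal Pointwise

/-! ## Definitions -/

/-- The translates `u + K`, `u ∈ S`, form a packing: their interiors are pairwise disjoint. -/
def IsTPacking (K S : Set E3) : Prop :=
  ∀ u ∈ S, ∀ w ∈ S, u ≠ w → Disjoint (interior (u +ᵥ K)) (interior (w +ᵥ K))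

/-- The density of the family of the translates `u + K`, `u ∈ S`. -/
noncomputable def tDensity (K S : Set E3) : ℝ≥0∞ :=
  limsup (fun r : ℝ => (∑' u : S, volume (((u : E3) +ᵥ K) ∩ closedBall (0 : E3) r)) /
    volume (closedBall (0 : E3) r)) atTop

/-- `δ_T(K)`: the supremum of the densities of all packings by translates of `K`. -/
noncomputable def deltaT (K : Set E3) : ℝ≥0∞ :=
  ⨆ (S : Set E3) (_ : IsTPacking K S), tDensity K S

/-- The translates `u + K`, `u ∈ S`, and the reflected copies `w - K`, `w ∈ R`, together form a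
packing: the interiors are pairwise disjoint. -/
def IsTstarPacking (K S R : Set E3) : Prop :=
  IsTPacking K S ∧ IsTPacking (-K) R ∧
    ∀ u ∈ S, ∀ w ∈ R, Disjoint (interior (u +ᵥ K)) (interior (w +ᵥ -K))

/-- The density of the family of all `u + K`, `u ∈ S`, and all `w - K`, `w ∈ R`. -/
noncomputable def tstarDensity (K S R : Set E3) : ℝ≥0∞ :=
  limsup (fun r : ℝ => (∑' u : S, volume (((u : E3) +ᵥ K) ∩ closedBall (0 : E3) r) +
    ∑' w : R, volume (((w : E3) +ᵥ -K) ∩ closedBall (0 : E3) r)) /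
    volume (closedBall (0 : E3) r)) atTop

/-- `δ_{T*}(K)`: the supremum of the densities of all packings by translates of `K` and of
`-K`. -/
noncomputable def deltaTstar (K : Set E3) : ℝ≥0∞ :=
  ⨆ (S : Set E3) (R : Set E3) (_ : IsTstarPacking K S R), tstarDensity K S R

/-- `m_L`. -/
noncomputable def mL : ℝ≥0∞ := ⨅ (K : Set E3) (_ : IsConvexBody K), deltaL K
/-- `m_T`. -/
noncomputable def mT : ℝ≥0∞ := ⨅ (K : Set E3) (_ : IsConvexBody K), deltaT K
/-- `m_{L*}`. -/
noncomputable def mLstar : ℝ≥0∞ := ⨅ (K : Set E3) (_ : IsConvexBody K), deltaLstar K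
/-- `m_{T*}`. -/
noncomputable def mTstar : ℝ≥0∞ := ⨅ (K : Set E3) (_ : IsConvexBody K), deltaTstar K

/-! ## Comparisons -/

theorem deltaL_le_deltaT (K : Set E3) : deltaL K ≤ deltaT K := by
  unfold deltaL
  refine iSup_le fun Λ => iSup_le fun _ => iSup_le fun _ => iSup_le fun hp => ?_
  refine le_trans (le_of_eq ?_) (le_iSup_of_le (Λ : Set E3) (le_iSup_of_le ?_ le_rfl))
  · rfl
  · intro u hu w hw huw
    exact hp u hu w hw huw

theorem interior_vadd_eq (u v : E3) (A : Set E3) : u +ᵥ (v +ᵥ A) = (u + v) +ᵥ A :=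
  vadd_vadd u v A

theorem deltaLstar_le_deltaTstar (K : Set E3) : deltaLstar K ≤ deltaTstar K := by
  unfold deltaLstar
  refine iSup_le fun Λ => iSup_le fun _ => iSup_le fun _ => iSup_le fun v => iSup_le fun hd =>
    iSup_le fun hp => ?_
  have hsub1 : ∀ u : E3, interior (u +ᵥ K) ⊆ interior (u +ᵥ (K ∪ (v +ᵥ -K))) := fun u =>
    interior_mono (Set.vadd_set_mono Set.subset_union_left)
  have hsub2 : ∀ u : E3, interior ((u + v) +ᵥ -K) ⊆ interior (u +ᵥ (K ∪ (v +ᵥ -K))) := fun u => by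
    rw [← interior_vadd_eq]
    exact interior_mono (Set.vadd_set_mono Set.subset_union_right)
  set R : Set E3 := {w | w - v ∈ Λ} with hR
  have hpack : IsTstarPacking K (Λ : Set E3) R := by
    refine ⟨?_, ?_, ?_⟩
    · intro u hu w hw huw
      exact (hp u hu w hw huw).mono (hsub1 u) (hsub1 w)
    · intro u hu w hw huw
      have h1 := hp (u - v) hu (w - v) hw (fun h => huw (sub_left_injective h))
      have h2 := hsub2 (u - v)
      have h3 := hsub2 (w - v)
      rw [sub_add_cancel] at h2 h3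
      exact h1.mono h2 h3
    · intro u hu w hw
      by_cases huw : u = w - v
      · subst huw
        rw [interior_vadd, ← sub_add_cancel w v, ← interior_vadd_eq, interior_vadd (w - v),
          add_sub_cancel_right]
        exact (Set.disjoint_vadd_set.2 hd)
      · have h1 := hp u hu (w - v) hw huw
        have h3 := hsub2 (w - v)
        rw [sub_add_cancel] at h3
        exact h1.mono (hsub1 u) h3
  refine le_trans ?_ (le_iSup_of_le (Λ : Set E3) (le_iSup_of_le R (le_iSup_of_le hpack le_rfl)))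
  unfold density tstarDensity
  refine limsup_le_limsup (Eventually.of_forall (fun r => ?_))
  · beta_reduce
    gcongr
    let e : Λ ≃ R :=
      { toFun := fun u => ⟨(u : E3) + v, by simp [hR]⟩
        invFun := fun w => ⟨(w : E3) - v, w.2⟩
        left_inv := fun u => by simp
        right_inv := fun w => by simp }
    have h1 : ∑' w : R, volume (((w : E3) +ᵥ -K) ∩ closedBall (0 : E3) r) =
        ∑' u : Λ, volume ((((u : E3) + v) +ᵥ -K) ∩ closedBall (0 : E3) r) := by
      rw [← e.tsum_eq]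
      rfl
    have h2 : ∑' u : (Λ : Set E3), volume (((u : E3) +ᵥ K) ∩ closedBall (0 : E3) r) =
        ∑' u : Λ, volume (((u : E3) +ᵥ K) ∩ closedBall (0 : E3) r) := rfl
    rw [h1, h2, ← ENNReal.tsum_add]
    refine ENNReal.tsum_le_tsum (fun u => ?_)
    refine le_trans (measure_mono ?_) (measure_union_le _ _)
    rintro x ⟨hx, hxr⟩
    rw [Set.vadd_set_union, interior_vadd_eq] at hx
    rcases hx with hx | hx
    · exact Or.inl ⟨hx, hxr⟩
    · exact Or.inr ⟨hx, hxr⟩

/-! ## An upper bound for the translative density -/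

/-- If the difference set of an open convex set `O ⊆ int K` is large, packings by translates of
`K` are thin. -/
theorem tDensity_le {K O : Set E3} (hOK : O ⊆ interior K) (hOc : Convex ℝ O)
    {C : Set E3} (hC : ∀ x ∈ C, ∃ a ∈ O, ∃ b ∈ O, x = (1 / 2 : ℝ) • (a - b))
    (hCm : MeasurableSet C) {ρ : ℝ} (hK : K ⊆ closedBall 0 ρ)
    (hC0 : volume C ≠ 0) (hCt : volume C ≠ ⊤) {S : Set E3} (hS : IsTPacking K S) :
    tDensity K S ≤ volume K / volume C := by
  classical
  have hCρ : C ⊆ closedBall 0 ρ := by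
    intro x hx
    obtain ⟨a, ha, b, hb, rfl⟩ := hC x hx
    have h1 := hK (interior_subset (hOK ha))
    have h2 := hK (interior_subset (hOK hb))
    rw [mem_closedBall_zero_iff] at h1 h2 ⊢
    rw [norm_smul]
    have h3 := norm_sub_le a b
    norm_num
    linarith
  -- the translates of `C` are disjoint
  have hdisj : ∀ u ∈ S, ∀ w ∈ S, u ≠ w → Disjoint (u +ᵥ C) (w +ᵥ C) := by
    intro u hu w hw huw
    rw [Set.disjoint_left]
    rintro _ ⟨x, hx, rfl⟩ ⟨y, hy, hxy⟩
    obtain ⟨a, ha, b, hb, rfl⟩ := hC x hx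
    obtain ⟨a', ha', b', hb', rfl⟩ := hC y hy
    simp only [vadd_eq_add] at hxy
    have h1 := hS u hu w hw huw
    rw [Set.disjoint_left] at h1
    have m1 : (1 / 2 : ℝ) • a + (1 / 2 : ℝ) • b' ∈ O :=
      hOc ha hb' (by norm_num) (by norm_num) (by norm_num)
    have m2 : (1 / 2 : ℝ) • a' + (1 / 2 : ℝ) • b ∈ O :=
      hOc ha' hb (by norm_num) (by norm_num) (by norm_num)
    refine h1 (a := u + ((1 / 2 : ℝ) • a + (1 / 2 : ℝ) • b')) ?_ ?_
    · rw [mem_interior_vadd, add_sub_cancel_left]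
      exact hOK m1
    · rw [mem_interior_vadd]
      have e : u + ((1 / 2 : ℝ) • a + (1 / 2 : ℝ) • b') - w =
          (1 / 2 : ℝ) • a' + (1 / 2 : ℝ) • b := by
        have h2 : w - u = (1 / 2 : ℝ) • (a - b) - (1 / 2 : ℝ) • (a' - b') := by
          rw [← sub_eq_zero]
          have := sub_eq_zero.2 hxy
          rw [← this]
          abel
        have h3 : u + ((1 / 2 : ℝ) • a + (1 / 2 : ℝ) • b') - w =
            ((1 / 2 : ℝ) • a + (1 / 2 : ℝ) • b') - (w - u) := by abel
        rw [h3, h2]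
        module
      rw [e]
      exact hOK m2
  have hcount : ∀ s : ℝ, (∑' u : S, (if ‖(u : E3)‖ ≤ s then (1 : ℝ≥0∞) else 0)) * volume C ≤
      volume (closedBall (0 : E3) (s + ρ)) := by
    intro s
    rw [← ENNReal.tsum_mul_right, ENNReal.tsum_eq_iSup_sum]
    refine iSup_le (fun F => ?_)
    let G : S → Set E3 := fun u => if ‖(u : E3)‖ ≤ s then (u : E3) +ᵥ C else ∅
    have hG : ∀ u : S, (if ‖(u : E3)‖ ≤ s then (1 : ℝ≥0∞) else 0) * volume C = volume (G u) := by
      intro u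
      by_cases h : ‖(u : E3)‖ ≤ s
      · simp only [G, if_pos h, one_mul]
        exact (measure_vadd volume (u : E3) C).symm
      · simp only [G, if_neg h, zero_mul, measure_empty]
    simp only [hG]
    rw [← measure_biUnion_finset]
    · apply measure_mono
      intro x hx
      simp only [Set.mem_iUnion] at hx
      obtain ⟨u, -, hu⟩ := hx
      by_cases h : ‖(u : E3)‖ ≤ s
      · simp only [G, if_pos h] at hu
        obtain ⟨y, hy, rfl⟩ := hu
        have hy2 := hCρ hy
        rw [mem_closedBall_zero_iff] at hy2 ⊢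
        calc ‖(u : E3) + y‖ ≤ ‖(u : E3)‖ + ‖y‖ := norm_add_le _ _
          _ ≤ s + ρ := add_le_add h hy2
      · simp only [G, if_neg h] at hu
        exact absurd hu (Set.notMem_empty _)
    · intro u _ w _ huw
      simp only [Function.onFun, G]
      split_ifs
      · exact hdisj u u.2 w w.2 (fun h => huw (Subtype.ext h))
      · exact disjoint_bot_right
      · exact disjoint_bot_left
      · exact disjoint_bot_left
    · intro u _
      simp only [G]
      split_ifs
      · exact hCm.const_vadd (u : E3)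
      · exact MeasurableSet.empty
  have hup : ∀ r : ℝ, (∑' u : S, volume (((u : E3) +ᵥ K) ∩ closedBall (0 : E3) r)) ≤
      volume (closedBall (0 : E3) (r + ρ + ρ)) / volume C * volume K := by
    intro r
    have h1 : (∑' u : S, volume (((u : E3) +ᵥ K) ∩ closedBall (0 : E3) r)) ≤
        (∑' u : S, (if ‖(u : E3)‖ ≤ r + ρ then (1 : ℝ≥0∞) else 0)) * volume K := by
      rw [← ENNReal.tsum_mul_right]
      refine ENNReal.tsum_le_tsum (fun u => ?_)
      by_cases h : ‖(u : E3)‖ ≤ r + ρ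
      · rw [if_pos h, one_mul]
        calc _ ≤ volume ((u : E3) +ᵥ K) := measure_mono Set.inter_subset_left
          _ = volume K := measure_vadd volume (u : E3) K
      · rw [if_neg h, zero_mul]
        have : ((u : E3) +ᵥ K) ∩ closedBall (0 : E3) r = ∅ := by
          rw [Set.eq_empty_iff_forall_notMem]
          rintro x ⟨⟨y, hy, rfl⟩, hx⟩
          apply h
          have hy2 := hK hy
          rw [mem_closedBall_zero_iff] at hy2 hx
          have : (u : E3) = ((u : E3) + y) - y := by abel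
          rw [this]
          calc ‖((u : E3) + y) - y‖ ≤ ‖(u : E3) + y‖ + ‖y‖ := norm_sub_le _ _
            _ ≤ r + ρ := add_le_add hx hy2
        rw [this, measure_empty]
    refine le_trans h1 ?_
    gcongr
    rw [ENNReal.le_div_iff_mul_le (Or.inl hC0) (Or.inl hCt)]
    exact hcount (r + ρ)
  unfold tDensity
  calc limsup (fun r : ℝ => (∑' u : S, volume (((u : E3) +ᵥ K) ∩ closedBall (0 : E3) r)) /
        volume (closedBall (0 : E3) r)) atTop
      ≤ limsup (fun r : ℝ => ENNReal.ofReal (((r + (ρ + ρ)) / r) ^ 3) *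
          (volume K / volume C)) atTop := by
        refine limsup_le_limsup ?_
        filter_upwards [eventually_gt_atTop (0 : ℝ), eventually_gt_atTop (-(ρ + ρ))] with r hr0 hr1
        rw [← ratio_eq hr0 (by linarith)]
        gcongr
        rw [← add_assoc]
        exact hup r
    _ = volume K / volume C := (ratio_tendsto (ρ + ρ) _).limsup_eq

/-! ## The tetrahedron -/

/-- The regular tetrahedron with the vertices `(1,1,1), (1,-1,-1), (-1,1,-1), (-1,-1,1)`. -/
def tet : Set E3 :=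
  {x | -x 0 - x 1 - x 2 ≤ 1 ∧ -x 0 + x 1 + x 2 ≤ 1 ∧ x 0 - x 1 + x 2 ≤ 1 ∧ x 0 + x 1 - x 2 ≤ 1}

/-- Its interior. -/
def tetO : Set E3 :=
  {x | -x 0 - x 1 - x 2 < 1 ∧ -x 0 + x 1 + x 2 < 1 ∧ x 0 - x 1 + x 2 < 1 ∧ x 0 + x 1 - x 2 < 1}

/-- The open cuboctahedron, in coordinates. -/
def cubo : Set (Fin 3 → ℝ) :=
  {x | |x 0| < 1 ∧ |x 1| < 1 ∧ |x 2| < 1 ∧ |x 0| + |x 1| + |x 2| < 2}

/-- The open cuboctahedron. -/
def cuboE : Set E3 := {x | (WithLp.ofLp x : Fin 3 → ℝ) ∈ cubo}

theorem tetO_open : IsOpen tetO := by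
  unfold tetO
  repeat' apply IsOpen.and
  all_goals exact isOpen_lt (by fun_prop) (by fun_prop)

theorem tet_closed : IsClosed tet := by
  unfold tet
  repeat' apply IsClosed.and
  all_goals exact isClosed_le (by fun_prop) (by fun_prop)

theorem tetO_convex : Convex ℝ tetO := by
  rintro x ⟨x1, x2, x3, x4⟩ y ⟨y1, y2, y3, y4⟩ a b ha hb hab
  have key : ∀ p q : ℝ, p < 1 → q < 1 → a * p + b * q < 1 := by
    intro p q hp hq
    rcases ha.lt_or_eq with h | h
    · have h1 : a * p < a * 1 := by gcongr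
      have h2 : b * q ≤ b * 1 := by gcongr
      linarith
    · have hb1 : b = 1 := by linarith
      rw [← h, hb1]; linarith
  refine ⟨?_, ?_, ?_, ?_⟩
  · have := key _ _ x1 y1
    simp only [PiLp.add_apply, PiLp.smul_apply, smul_eq_mul]; linarith
  · have := key _ _ x2 y2
    simp only [PiLp.add_apply, PiLp.smul_apply, smul_eq_mul]; linarith
  · have := key _ _ x3 y3
    simp only [PiLp.add_apply, PiLp.smul_apply, smul_eq_mul]; linarith
  · have := key _ _ x4 y4
    simp only [PiLp.add_apply, PiLp.smul_apply, smul_eq_mul]; linarith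

theorem tet_convex : Convex ℝ tet := by
  rintro x ⟨x1, x2, x3, x4⟩ y ⟨y1, y2, y3, y4⟩ a b ha hb hab
  have key : ∀ p q : ℝ, p ≤ 1 → q ≤ 1 → a * p + b * q ≤ 1 := by
    intro p q hp hq
    have h1 : a * p ≤ a * 1 := by gcongr
    have h2 : b * q ≤ b * 1 := by gcongr
    linarith
  refine ⟨?_, ?_, ?_, ?_⟩
  · have := key _ _ x1 y1
    simp only [PiLp.add_apply, PiLp.smul_apply, smul_eq_mul]; linarith
  · have := key _ _ x2 y2
    simp only [PiLp.add_apply, PiLp.smul_apply, smul_eq_mul]; linarith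
  · have := key _ _ x3 y3
    simp only [PiLp.add_apply, PiLp.smul_apply, smul_eq_mul]; linarith
  · have := key _ _ x4 y4
    simp only [PiLp.add_apply, PiLp.smul_apply, smul_eq_mul]; linarith

theorem tetO_subset : tetO ⊆ tet := fun _ h => ⟨h.1.le, h.2.1.le, h.2.2.1.le, h.2.2.2.le⟩

theorem tetO_subset_interior : tetO ⊆ interior tet :=
  interior_maximal tetO_subset tetO_open

theorem tet_bounded : tet ⊆ closedBall 0 3 := by
  rintro x ⟨x1, x2, x3, x4⟩
  rw [mem_closedBall_zero_iff, EuclideanSpace.norm_eq, Fin.sum_univ_three]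
  apply Real.sqrt_le_iff.2
  refine ⟨by norm_num, ?_⟩
  simp only [Real.norm_eq_abs, sq_abs]
  have h0 : x 0 ^ 2 ≤ 1 := by
    rw [sq_le_one_iff_abs_le_one, abs_le]; constructor <;> linarith
  have h1 : x 1 ^ 2 ≤ 1 := by
    rw [sq_le_one_iff_abs_le_one, abs_le]; constructor <;> linarith
  have h2 : x 2 ^ 2 ≤ 1 := by
    rw [sq_le_one_iff_abs_le_one, abs_le]; constructor <;> linarith
  linarith

theorem tet_body : IsConvexBody tet := by
  refine ⟨tet_convex, Metric.isCompact_of_isClosed_isBounded tet_closed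
    (isBounded_closedBall.subset tet_bounded), ⟨0, tetO_subset_interior ?_⟩⟩
  refine ⟨?_, ?_, ?_, ?_⟩ <;> simp

theorem vol_tet_le : volume tet ≤ ENNReal.ofReal (8 / 3) := by
  have h0 : volume tet = volume {x : Fin 3 → ℝ | -x 0 - x 1 - x 2 ≤ 1 ∧ -x 0 + x 1 + x 2 ≤ 1 ∧
      x 0 - x 1 + x 2 ≤ 1 ∧ x 0 + x 1 - x 2 ≤ 1} := by
    have hm : MeasurableSet {x : Fin 3 → ℝ | -x 0 - x 1 - x 2 ≤ 1 ∧ -x 0 + x 1 + x 2 ≤ 1 ∧
        x 0 - x 1 + x 2 ≤ 1 ∧ x 0 + x 1 - x 2 ≤ 1} := by
      apply IsClosed.measurableSet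
      repeat' apply IsClosed.and
      all_goals exact isClosed_le (by fun_prop) (by fun_prop)
    exact (PiLp.volume_preserving_ofLp (Fin 3)).measure_preimage hm.nullMeasurableSet
  rw [h0]
  have hset : {x : Fin 3 → ℝ | -x 0 - x 1 - x 2 ≤ 1 ∧ -x 0 + x 1 + x 2 ≤ 1 ∧
      x 0 - x 1 + x 2 ≤ 1 ∧ x 0 + x 1 - x 2 ≤ 1} ⊆ {x : Fin 3 → ℝ |
      (!![1, -1, -1; -1, 1, -1; -1, -1, 1] : Matrix (Fin 3) (Fin 3) ℝ).mulVec x + ![1, 1, 1] ∈
        Pool.Agent.Helper84.Tet.SimpC 4} := by
    rintro x ⟨h1, h2, h3, h4⟩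
    simp only [Set.mem_ofPred_eq, Pool.Agent.Helper84.Tet.SimpC, Matrix.mulVec, dotProduct,
      Fin.sum_univ_three, Pi.add_apply]
    simp
    refine ⟨?_, ?_, ?_, ?_⟩ <;> linarith
  have hdet : (!![1, -1, -1; -1, 1, -1; -1, -1, 1] : Matrix (Fin 3) (Fin 3) ℝ).det = -4 := by
    rw [Matrix.det_fin_three]
    simp
    norm_num
  refine le_trans (measure_mono hset) ?_
  rw [Pool.Agent.Helper84.Tet.vol_preimage_matrix _ _ (by rw [hdet]; norm_num), hdet]
  have h1 := Pool.Agent.Helper84.Tet.vol_SimpC_le (s := 4) (by positivity)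
  refine le_trans (mul_le_mul_right h1 _) ?_
  rw [← ENNReal.ofReal_mul (by positivity)]
  apply ENNReal.ofReal_le_ofReal
  rw [abs_inv, abs_neg, abs_of_pos (by norm_num : (0 : ℝ) < 4)]
  norm_num

open Pool.Agent.Helper84.Tet in
theorem vol_cubo_ge : ENNReal.ofReal (20 / 3) ≤ volume cubo := by
  -- the cube is covered by the cuboctahedron and eight corners
  have hcube : volume (Set.pi Set.univ (fun _ : Fin 3 => Set.Ioo (-1 : ℝ) 1)) =
      ENNReal.ofReal 8 := by
    rw [Real.volume_pi_Ioo]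
    rw [Fin.prod_univ_three]
    norm_num
  let corner : Fin 2 × Fin 2 × Fin 2 → Set (Fin 3 → ℝ) := fun k =>
    {x | (Matrix.diagonal (fun i => -sg k i)).mulVec x + ![1, 1, 1] ∈ SimpC 1}
  have hcov : Set.pi Set.univ (fun _ : Fin 3 => Set.Ioo (-1 : ℝ) 1) ⊆
      cubo ∪ ⋃ k, corner k := by
    intro x hx
    rw [Set.mem_pi] at hx
    have hx0 := hx 0 (Set.mem_univ _)
    have hx1 := hx 1 (Set.mem_univ _)
    have hx2 := hx 2 (Set.mem_univ _)
    by_cases h : |x 0| + |x 1| + |x 2| < 2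
    · left
      exact ⟨abs_lt.2 hx0, abs_lt.2 hx1, abs_lt.2 hx2, h⟩
    · right
      push Not at h
      have key : ∀ y : ℝ, ∃ a : Fin 2, |y| = (if a = 0 then (1 : ℝ) else -1) * y := by
        intro y
        rcases abs_cases y with ⟨h, h'⟩ | ⟨h, h'⟩
        · exact ⟨0, by simp [h]⟩
        · exact ⟨1, by simp [h]⟩
      obtain ⟨a, ha⟩ := key (x 0)
      obtain ⟨b, hb⟩ := key (x 1)
      obtain ⟨c, hc⟩ := key (x 2)
      rw [Set.mem_iUnion]
      refine ⟨(a, b, c), ?_⟩
      have h0 := abs_lt.2 hx0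
      have h1 := abs_lt.2 hx1
      have h2 := abs_lt.2 hx2
      simp only [corner, SimpC, Set.mem_ofPred_eq, Matrix.mulVec_diagonal, Pi.add_apply, sg,
        Matrix.cons_val_zero, Matrix.cons_val_one, Matrix.cons_val]
      refine ⟨?_, ?_, ?_, ?_⟩
      · rw [neg_mul, ← ha]; linarith
      · rw [neg_mul, ← hb]; linarith
      · rw [neg_mul, ← hc]; linarith
      · rw [neg_mul, ← ha, neg_mul, ← hb, neg_mul, ← hc]; linarith
  have hcorner : ∀ k, volume (corner k) ≤ ENNReal.ofReal (1 / 6) := by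
    intro k
    have hdet : |(Matrix.diagonal (fun i => -sg k i)).det⁻¹| = 1 := by
      rw [Matrix.det_diagonal, Fin.prod_univ_three]
      obtain ⟨a, b, c⟩ := k
      fin_cases a <;> fin_cases b <;> fin_cases c <;> simp [sg]
    have hdet0 : (Matrix.diagonal (fun i => -sg k i)).det ≠ 0 := by
      intro h
      rw [h] at hdet
      simp at hdet
    simp only [corner]
    rw [vol_preimage_matrix _ _ hdet0, hdet, ENNReal.ofReal_one, one_mul]
    have := vol_SimpC_le (s := 1) (by norm_num)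
    simpa using this
  have h1 : ENNReal.ofReal 8 ≤ volume cubo + 8 * ENNReal.ofReal (1 / 6) := by
    calc ENNReal.ofReal 8 = volume (Set.pi Set.univ (fun _ : Fin 3 => Set.Ioo (-1 : ℝ) 1)) :=
          hcube.symm
      _ ≤ volume (cubo ∪ ⋃ k, corner k) := measure_mono hcov
      _ ≤ volume cubo + volume (⋃ k, corner k) := measure_union_le _ _
      _ ≤ volume cubo + ∑ k, volume (corner k) := by
          gcongr
          exact measure_iUnion_fintype_le _ _
      _ ≤ volume cubo + ∑ _k : Fin 2 × Fin 2 × Fin 2, ENNReal.ofReal (1 / 6) := by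
          gcongr with k _
          exact hcorner k
      _ = volume cubo + 8 * ENNReal.ofReal (1 / 6) := by simp
  have h2 : (8 : ℝ≥0∞) * ENNReal.ofReal (1 / 6) = ENNReal.ofReal (4 / 3) := by
    rw [show (8 : ℝ≥0∞) = ENNReal.ofReal 8 by simp, ← ENNReal.ofReal_mul (by norm_num)]
    norm_num
  rw [h2] at h1
  have h3 : ENNReal.ofReal 8 = ENNReal.ofReal (20 / 3) + ENNReal.ofReal (4 / 3) := by
    rw [← ENNReal.ofReal_add (by norm_num) (by norm_num)]
    norm_num
  rw [h3] at h1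
  exact (ENNReal.add_le_add_iff_right ENNReal.ofReal_ne_top).1 h1

theorem measurableSet_cubo : MeasurableSet cubo := by
  apply IsOpen.measurableSet
  unfold cubo
  repeat' apply IsOpen.and
  all_goals exact isOpen_lt (by fun_prop) (by fun_prop)

theorem vol_cuboE : volume cuboE = volume cubo :=
  (PiLp.volume_preserving_ofLp (Fin 3)).measure_preimage measurableSet_cubo.nullMeasurableSet

theorem cuboE_diff : ∀ x ∈ cuboE, ∃ a ∈ tetO, ∃ b ∈ tetO, x = (1 / 2 : ℝ) • (a - b) := by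
  rintro x ⟨h0, h1, h2, h3⟩
  change |x 0| < 1 at h0
  change |x 1| < 1 at h1
  change |x 2| < 1 at h2
  change |x 0| + |x 1| + |x 2| < 2 at h3
  set f₀ := -x 0 - x 1 - x 2 with hf₀
  set f₁ := -x 0 + x 1 + x 2 with hf₁
  set f₂ := x 0 - x 1 + x 2 with hf₂
  set f₃ := x 0 + x 1 - x 2 with hf₃
  have hsum : f₀ + f₁ + f₂ + f₃ = 0 := by rw [hf₀, hf₁, hf₂, hf₃]; ring
  set P := max f₀ 0 + max f₁ 0 + max f₂ 0 + max f₃ 0 with hP
  have hN : max (-f₀) 0 + max (-f₁) 0 + max (-f₂) 0 + max (-f₃) 0 = P := by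
    have h : ∀ t : ℝ, max t 0 = t + max (-t) 0 := by
      intro t
      rcases le_total 0 t with h | h
      · rw [max_eq_left h, max_eq_right (by linarith)]; ring
      · rw [max_eq_right h, max_eq_left (by linarith)]; ring
    rw [hP, h f₀, h f₁, h f₂, h f₃]
    linarith
  have hP2 : P < 2 := by
    have a0 := abs_lt.1 h0
    have a1 := abs_lt.1 h1
    have a2 := abs_lt.1 h2
    have b0 := neg_abs_le (x 0)
    have b1 := neg_abs_le (x 1)
    have b2 := neg_abs_le (x 2)
    have c0 := le_abs_self (x 0)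
    have c1 := le_abs_self (x 1)
    have c2 := le_abs_self (x 2)
    rw [hP]
    rcases max_cases f₀ 0 with ⟨e0, -⟩ | ⟨e0, -⟩ <;> rcases max_cases f₁ 0 with ⟨e1, -⟩ | ⟨e1, -⟩ <;>
      rcases max_cases f₂ 0 with ⟨e2, -⟩ | ⟨e2, -⟩ <;> rcases max_cases f₃ 0 with ⟨e3, -⟩ | ⟨e3, -⟩ <;>
      rw [e0, e1, e2, e3] <;> linarith
  set r := (2 - P) / 8 with hr
  have hr0 : 0 < r := by rw [hr]; linarith
  -- barycentric coordinates
  set p₀ := max (-f₀) 0 / 2 + r with hp₀
  set p₁ := max (-f₁) 0 / 2 + r with hp₁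
  set p₂ := max (-f₂) 0 / 2 + r with hp₂
  set p₃ := max (-f₃) 0 / 2 + r with hp₃
  set q₀ := max f₀ 0 / 2 + r with hq₀
  set q₁ := max f₁ 0 / 2 + r with hq₁
  set q₂ := max f₂ 0 / 2 + r with hq₂
  set q₃ := max f₃ 0 / 2 + r with hq₃
  have hp0 : ∀ t : ℝ, 0 < max t 0 / 2 + r := fun t => by
    have := le_max_right t 0
    linarith
  have sp : p₀ + p₁ + p₂ + p₃ = 1 := by rw [hp₀, hp₁, hp₂, hp₃, hr]; linarith
  have sq : q₀ + q₁ + q₂ + q₃ = 1 := by rw [hq₀, hq₁, hq₂, hq₃, hr]; linarith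
  have hdiff : ∀ t : ℝ, (max (-t) 0 / 2 + r) - (max t 0 / 2 + r) = -t / 2 := by
    intro t
    rcases le_total 0 t with h | h
    · rw [max_eq_left h, max_eq_right (by linarith)]; ring
    · rw [max_eq_right h, max_eq_left (by linarith)]; ring
  have d0 : p₀ - q₀ = -f₀ / 2 := hdiff f₀
  have d1 : p₁ - q₁ = -f₁ / 2 := hdiff f₁
  have d2 : p₂ - q₂ = -f₂ / 2 := hdiff f₂
  have d3 : p₃ - q₃ = -f₃ / 2 := hdiff f₃
  have P0 : 0 < p₀ := hp0 _
  have P1 : 0 < p₁ := hp0 _
  have P2 : 0 < p₂ := hp0 _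
  have P3 : 0 < p₃ := hp0 _
  have Q0 : 0 < q₀ := hp0 _
  have Q1 : 0 < q₁ := hp0 _
  have Q2 : 0 < q₂ := hp0 _
  have Q3 : 0 < q₃ := hp0 _
  have hmem : ∀ a b c d : ℝ, 0 < a → 0 < b → 0 < c → 0 < d → a + b + c + d = 1 →
      (!₂[a + b - c - d, a - b + c - d, a - b - c + d] : E3) ∈ tetO := by
    intro a b c d ha hb hc hd hs
    refine ⟨?_, ?_, ?_, ?_⟩
    · change -(a + b - c - d) - (a - b + c - d) - (a - b - c + d) < 1; linarith
    · change -(a + b - c - d) + (a - b + c - d) + (a - b - c + d) < 1; linarith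
    · change (a + b - c - d) - (a - b + c - d) + (a - b - c + d) < 1; linarith
    · change (a + b - c - d) + (a - b + c - d) - (a - b - c + d) < 1; linarith
  refine ⟨_, hmem p₀ p₁ p₂ p₃ P0 P1 P2 P3 sp, _, hmem q₀ q₁ q₂ q₃ Q0 Q1 Q2 Q3 sq, ?_⟩
  apply E3_ext
  · simp only [PiLp.smul_apply, PiLp.sub_apply, smul_eq_mul]
    change x 0 = 1 / 2 * ((p₀ + p₁ - p₂ - p₃) - (q₀ + q₁ - q₂ - q₃))
    linarith
  · simp only [PiLp.smul_apply, PiLp.sub_apply, smul_eq_mul]
    change x 1 = 1 / 2 * ((p₀ - p₁ + p₂ - p₃) - (q₀ - q₁ + q₂ - q₃))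
    linarith
  · simp only [PiLp.smul_apply, PiLp.sub_apply, smul_eq_mul]
    change x 2 = 1 / 2 * ((p₀ - p₁ - p₂ + p₃) - (q₀ - q₁ - q₂ + q₃))
    linarith

theorem deltaT_tet_le : deltaT tet ≤ ENNReal.ofReal (2 / 5) := by
  have hcm : MeasurableSet cuboE :=
    (PiLp.volume_preserving_ofLp (Fin 3)).measurable measurableSet_cubo
  have hlow : ENNReal.ofReal (20 / 3) ≤ volume cuboE := by rw [vol_cuboE]; exact vol_cubo_ge
  have hC0 : volume cuboE ≠ 0 :=
    (lt_of_lt_of_le (ENNReal.ofReal_pos.2 (by norm_num)) hlow).ne'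
  have hCt : volume cuboE ≠ ⊤ := by
    refine ((measure_mono (?_ : cuboE ⊆ closedBall 0 3)).trans_lt measure_closedBall_lt_top).ne
    intro x hx
    obtain ⟨a, ha, b, hb, rfl⟩ := cuboE_diff x hx
    have h1 := tet_bounded (tetO_subset ha)
    have h2 := tet_bounded (tetO_subset hb)
    rw [mem_closedBall_zero_iff] at h1 h2 ⊢
    rw [norm_smul]
    have h3 := norm_sub_le a b
    norm_num
    linarith
  unfold deltaT
  refine iSup_le fun S => iSup_le fun hS => ?_
  refine (tDensity_le tetO_subset_interior tetO_convex cuboE_diff hcm tet_bounded hC0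
    hCt hS).trans ?_
  rw [ENNReal.div_le_iff_le_mul (Or.inl hC0) (Or.inl hCt)]
  calc volume tet ≤ ENNReal.ofReal (8 / 3) := vol_tet_le
    _ = ENNReal.ofReal (2 / 5) * ENNReal.ofReal (20 / 3) := by
        rw [← ENNReal.ofReal_mul (by norm_num)]; norm_num
    _ ≤ _ := by gcongr

/-! ## The four minima -/

theorem ofReal_div_nat : ENNReal.ofReal (41 / 100) = 41 / 100 := by
  rw [ENNReal.ofReal_div_of_pos (by norm_num)]
  simp

theorem chain : 2 / 9 ≤ mL ∧ mL ≤ mT ∧ mT ≤ 2 / 5 ∧ 41 / 100 ≤ mLstar ∧ mLstar ≤ mTstar := by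
  refine ⟨?_, ?_, ?_, ?_, ?_⟩
  · unfold mL
    refine le_iInf fun K => le_iInf fun hK => ?_
    have h := deltaL_lower hK
    rwa [show ENNReal.ofReal (2 / 9) = 2 / 9 by
      rw [ENNReal.ofReal_div_of_pos (by norm_num)]; simp] at h
  · unfold mL mT
    exact iInf_mono fun K => iInf_mono fun _ => deltaL_le_deltaT K
  · unfold mT
    refine (iInf₂_le tet tet_body).trans (deltaT_tet_le.trans (le_of_eq ?_))
    rw [ENNReal.ofReal_div_of_pos (by norm_num)]; simp
  · unfold mLstar
    refine le_iInf fun K => le_iInf fun hK => ?_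
    have h := deltaLstar_lower hK
    rwa [ofReal_div_nat] at h
  · unfold mLstar mTstar
    exact iInf_mono fun K => iInf_mono fun _ => deltaLstar_le_deltaTstar K

end Pool.Agent.Helper59.Pack
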