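import Pool.Agent.Helper59.Pack.Averaging

/-!
# Lattice packings of a planar convex body with density at least 2/3
-/

set_option autoImplicit false
namespace Pool.Agent.Helper59.Pack
open MeasureTheory Metric
open scoped ENNReal

/-- Twice the signed area of the triangle `a b c`. -/
def area2 (a b c : P2) : ℝ := det2 (b - a) (c - a)

/-- The open standard triangle. -/
def stdTri : Set P2 := {p | 0 < p 0 ∧ 0 < p 1 ∧ p 0 + p 1 < 1}

theorem vol_stdTri : volume stdTri = ENNReal.ofReal (1 / 2) := by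
  have h1 := (volume_preserving_finTwoArrow ℝ).measure_preimage_equiv
    (regionBetween (fun _ => (0 : ℝ)) (fun u => 1 - u) (Set.Ioo 0 1))
  have h2 : (MeasurableEquiv.finTwoArrow (α := ℝ)) ⁻¹'
      (regionBetween (fun _ => (0 : ℝ)) (fun u => 1 - u) (Set.Ioo 0 1)) = stdTri := by
    ext p
    simp only [Set.mem_preimage, regionBetween, Set.mem_ofPred_eq, Set.mem_Ioo, stdTri,
      MeasurableEquiv.finTwoArrow_apply]
    constructor
    · rintro ⟨⟨h1, h2⟩, h3, h4⟩
      exact ⟨h1, h3, by linarith⟩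
    · rintro ⟨h1, h2, h3⟩
      exact ⟨⟨h1, by linarith⟩, h2, by linarith⟩
  rw [h2] at h1
  rw [h1, Measure.volume_eq_prod, volume_regionBetween_eq_integral]
  · congr 1
    rw [← MeasureTheory.integral_Ioc_eq_integral_Ioo, ← intervalIntegral.integral_of_le zero_le_one]
    simp only [Pi.sub_apply, sub_zero]
    rw [intervalIntegral.integral_sub (by simp) (by simp)]
    simp
    norm_num
  · exact integrableOn_const (by simp)
  · exact ((continuous_const.sub continuous_id).integrableOn_Icc (a := (0 : ℝ)) (b := 1)).mono_set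
      Set.Ioo_subset_Icc_self
  · exact measurableSet_Ioo
  · intro x hx
    have := hx.2
    linarith

/-- The parametrisation of the triangle `a b c`. -/
def triMap (a b c : P2) (p : P2) : P2 := a + (p 0 • (b - a) + p 1 • (c - a))

theorem vol_triMap (a b c : P2) :
    volume (triMap a b c '' stdTri) = ENNReal.ofReal (|area2 a b c| / 2) := by
  set M : Matrix (Fin 2) (Fin 2) ℝ :=
    !![(b - a) 0, (c - a) 0; (b - a) 1, (c - a) 1] with hM
  have h1 : triMap a b c = (fun x => a + x) ∘ (Matrix.toLin' M) := by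
    funext p
    simp only [triMap, Function.comp, Matrix.toLin'_apply]
    congr 1
    ext i
    fin_cases i
    · simp [hM, Matrix.mulVec, dotProduct, Fin.sum_univ_two]
      ring
    · simp [hM, Matrix.mulVec, dotProduct, Fin.sum_univ_two]
      ring
  rw [h1, Set.image_comp, Set.image_add_left, measure_preimage_add,
    Measure.addHaar_image_linearMap, vol_stdTri, ← ENNReal.ofReal_mul (abs_nonneg _),
    LinearMap.det_toLin']
  congr 1
  rw [hM, Matrix.det_fin_two_of, area2, det2]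
  rw [show (b - a) 0 * (c - a) 1 - (c - a) 0 * (b - a) 1 =
    (b - a) 0 * (c - a) 1 - (b - a) 1 * (c - a) 0 by ring]
  ring

theorem triMap_mem {Q : Set P2} (hQ : Convex ℝ Q) {a b c : P2} (ha : a ∈ Q) (hb : b ∈ Q)
    (hc : c ∈ Q) {p : P2} (hp : p ∈ stdTri) : triMap a b c p ∈ Q := by
  obtain ⟨h0, h1, h2⟩ := hp
  have h3 : (b ∈ Q ∧ c ∈ Q) := ⟨hb, hc⟩
  have hs : 0 < p 0 + p 1 := by linarith
  have hd : (p 0 / (p 0 + p 1)) • b + (p 1 / (p 0 + p 1)) • c ∈ Q :=
    hQ hb hc (by positivity) (by positivity) (by field_simp)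
  have := hQ ha hd (a := 1 - (p 0 + p 1)) (b := p 0 + p 1) (by linarith) hs.le (by ring)
  convert this using 1
  unfold triMap
  rw [smul_add, smul_smul, smul_smul, mul_div_cancel₀ _ hs.ne', mul_div_cancel₀ _ hs.ne']
  module

theorem area2_cyc (a b c : P2) : area2 b c a = area2 a b c := by
  simp only [area2, det2, Pi.sub_apply]; ring

theorem area2_swap (a b c : P2) : area2 a c b = - area2 a b c := by
  simp only [area2, det2, Pi.sub_apply]; ring

theorem area2_triMap_left (a b c p q : P2) (s : P2) :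
    area2 (triMap a b c s) p q = (1 - s 0 - s 1) * area2 a p q + s 0 * area2 b p q +
      s 1 * area2 c p q := by
  simp only [area2, det2, triMap, Pi.sub_apply, Pi.add_apply, Pi.smul_apply, smul_eq_mul]
  ring

theorem area2_self_left (a b : P2) : area2 a a b = 0 := by
  simp only [area2, det2, Pi.sub_apply]; ring

theorem area2_self_right (a b : P2) : area2 b a b = 0 := by
  simp only [area2, det2, Pi.sub_apply]; ring

/-- The setting: a triangle of maximal area inscribed in `Q`. -/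
structure MaxTri (Q : Set P2) (p₀ p₁ p₂ : P2) (A : ℝ) : Prop where
  m0 : p₀ ∈ Q
  m1 : p₁ ∈ Q
  m2 : p₂ ∈ Q
  hA : area2 p₀ p₁ p₂ = A
  pos : 0 < A
  max : ∀ x ∈ Q, ∀ y ∈ Q, ∀ z ∈ Q, area2 x y z ≤ A

theorem exists_maxTri {Q : Set P2} (hcomp : IsCompact Q) (hint : (interior Q).Nonempty) :
    ∃ p₀ p₁ p₂ A, MaxTri Q p₀ p₁ p₂ A := by
  obtain ⟨z, hz⟩ := hint
  obtain ⟨ε, hε, hball⟩ := Metric.isOpen_iff.1 isOpen_interior z hz
  have hzQ : z ∈ Q := interior_subset hz
  have hcont : Continuous fun x : P2 × P2 × P2 => area2 x.1 x.2.1 x.2.2 := by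
    unfold area2 det2
    simp only [Pi.sub_apply]
    fun_prop
  obtain ⟨⟨p₀, p₁, p₂⟩, ⟨h0, h1, h2⟩, hmax⟩ := (hcomp.prod (hcomp.prod hcomp)).exists_isMaxOn
    ⟨(z, z, z), hzQ, hzQ, hzQ⟩ hcont.continuousOn
  refine ⟨p₀, p₁, p₂, area2 p₀ p₁ p₂, h0, h1, h2, rfl, ?_, ?_⟩
  · have hmem : ∀ w : P2, (∀ i, |w i| < ε) → z + w ∈ Q := by
      intro w hw
      apply interior_subset
      apply hball
      rw [mem_ball, dist_pi_lt_iff hε]
      intro i
      rw [Real.dist_eq]
      simpa using hw i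
    have ha : z + ![ε / 2, 0] ∈ Q := hmem _ (by
      intro i; fin_cases i
      · change |ε / 2| < ε
        rw [abs_of_pos (by positivity)]
        linarith
      · simpa using hε)
    have hb : z + ![0, ε / 2] ∈ Q := hmem _ (by
      intro i; fin_cases i
      · simpa using hε
      · change |ε / 2| < ε
        rw [abs_of_pos (by positivity)]
        linarith)
    have h3 := hmax (show (z, z + ![ε / 2, 0], z + ![0, ε / 2]) ∈ Q ×ˢ (Q ×ˢ Q) from
      ⟨hzQ, ha, hb⟩)
    simp only [Set.mem_ofPred_eq] at h3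
    have h4 : area2 z (z + ![ε / 2, 0]) (z + ![0, ε / 2]) = (ε / 2) * (ε / 2) := by
      simp only [area2, det2, add_sub_cancel_left, Matrix.cons_val_zero, Matrix.cons_val_one]
      ring
    have h5 : 0 < (ε / 2) * (ε / 2) := by positivity
    calc 0 < (ε / 2) * (ε / 2) := h5
      _ = _ := h4.symm
      _ ≤ _ := h3
  · intro x hx y hy w hw
    exact hmax (show (x, y, w) ∈ Q ×ˢ (Q ×ˢ Q) from ⟨hx, hy, hw⟩)

/-- An affine function bounded above on a set is strictly below the bound in the interior. -/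
theorem lt_of_interior {Q : Set P2} {g : P2 → ℝ} {d : P2} {C : ℝ}
    (hg : ∀ x, ∀ r : ℝ, g (x + r • d) = g x + r) (hC : ∀ x ∈ Q, g x ≤ C) {x : P2}
    (hx : x ∈ interior Q) : g x < C := by
  have hcont : Continuous fun r : ℝ => x + r • d := by fun_prop
  have hopen : IsOpen ((fun r : ℝ => x + r • d) ⁻¹' interior Q) :=
    isOpen_interior.preimage hcont
  obtain ⟨ε, hε, hball⟩ := Metric.isOpen_iff.1 hopen 0 (by simpa using hx)
  have h1 : x + (ε / 2) • d ∈ interior Q := hball (by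
    rw [mem_ball, dist_zero_right, Real.norm_eq_abs, abs_of_pos (by positivity)]
    linarith)
  have h2 := hC _ (interior_subset h1)
  rw [hg] at h2
  linarith

theorem fary {Q : Set P2} (hconv : Convex ℝ Q) (hcomp : IsCompact Q)
    (hint : (interior Q).Nonempty) :
    ∃ t₁ t₂ : P2, 0 < det2 t₁ t₂ ∧ ENNReal.ofReal (det2 t₁ t₂) ≤ ENNReal.ofReal (3 / 2) * volume Q ∧
      ∀ m n : ℤ, (m ≠ 0 ∨ n ≠ 0) → ∀ x ∈ interior Q, ∀ y ∈ interior Q,
        x - y ≠ (m : ℝ) • t₁ + (n : ℝ) • t₂ := by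
  obtain ⟨p₀, p₁, p₂, A, h⟩ := exists_maxTri hcomp hint
  have hA := h.hA
  have hA0 := h.pos
  -- the three barycentric coordinates
  set l₀ : P2 → ℝ := fun x => area2 x p₁ p₂ with hl₀
  set l₁ : P2 → ℝ := fun x => area2 x p₂ p₀ with hl₁
  set l₂ : P2 → ℝ := fun x => area2 x p₀ p₁ with hl₂
  have hsum : ∀ x, l₀ x + l₁ x + l₂ x = A := by
    intro x
    rw [← hA]
    simp only [hl₀, hl₁, hl₂, area2, det2, Pi.sub_apply]
    ring
  have hc₀ : Continuous l₀ := by simp only [hl₀, area2, det2, Pi.sub_apply]; fun_prop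
  have hc₁ : Continuous l₁ := by simp only [hl₁, area2, det2, Pi.sub_apply]; fun_prop
  have hc₂ : Continuous l₂ := by simp only [hl₂, area2, det2, Pi.sub_apply]; fun_prop
  have u₀ : ∀ x ∈ Q, l₀ x ≤ A := fun x hx => h.max _ hx _ h.m1 _ h.m2
  have u₁ : ∀ x ∈ Q, l₁ x ≤ A := fun x hx => h.max _ hx _ h.m2 _ h.m0
  have u₂ : ∀ x ∈ Q, l₂ x ≤ A := fun x hx => h.max _ hx _ h.m0 _ h.m1
  have lo₀ : ∀ x ∈ Q, -A ≤ l₀ x := by
    intro x hx
    have := h.max _ hx _ h.m2 _ h.m1
    rw [area2_swap] at this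
    simp only [hl₀]
    linarith
  have lo₁ : ∀ x ∈ Q, -A ≤ l₁ x := by
    intro x hx
    have := h.max _ hx _ h.m0 _ h.m2
    rw [area2_swap] at this
    simp only [hl₁]
    linarith
  have lo₂ : ∀ x ∈ Q, -A ≤ l₂ x := by
    intro x hx
    have := h.max _ hx _ h.m1 _ h.m0
    rw [area2_swap] at this
    simp only [hl₂]
    linarith
  have hQne : Q.Nonempty := ⟨p₀, h.m0⟩
  obtain ⟨a₀, ha₀, hmin₀⟩ := hcomp.exists_isMinOn hQne hc₀.continuousOn
  obtain ⟨a₁, ha₁, hmin₁⟩ := hcomp.exists_isMinOn hQne hc₁.continuousOn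
  obtain ⟨a₂, ha₂, hmin₂⟩ := hcomp.exists_isMinOn hQne hc₂.continuousOn
  have hmin₀ : ∀ x ∈ Q, l₀ a₀ ≤ l₀ x := fun x hx => hmin₀ hx
  have hmin₁ : ∀ x ∈ Q, l₁ a₁ ≤ l₁ x := fun x hx => hmin₁ hx
  have hmin₂ : ∀ x ∈ Q, l₂ a₂ ≤ l₂ x := fun x hx => hmin₂ hx
  set X₀ := -l₀ a₀ with hX₀
  set X₁ := -l₁ a₁ with hX₁
  set X₂ := -l₂ a₂ with hX₂
  have l00 : l₀ p₀ = A := hA
  have l01 : l₀ p₁ = 0 := area2_self_left _ _
  have l02 : l₀ p₂ = 0 := area2_self_right _ _
  have l10 : l₁ p₀ = 0 := area2_self_right _ _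
  have l11 : l₁ p₁ = A := by
    simp only [hl₁]; rw [area2_cyc p₀ p₁ p₂]; exact hA
  have l12 : l₁ p₂ = 0 := area2_self_left _ _
  have l20 : l₂ p₀ = 0 := area2_self_left _ _
  have l21 : l₂ p₁ = 0 := area2_self_right _ _
  have l22 : l₂ p₂ = A := by
    simp only [hl₂]; rw [← area2_cyc p₂ p₀ p₁]; exact hA
  have X₀0 : 0 ≤ X₀ := by have := hmin₀ p₁ h.m1; rw [l01] at this; linarith
  have X₁0 : 0 ≤ X₁ := by have := hmin₁ p₀ h.m0; rw [l10] at this; linarith
  have X₂0 : 0 ≤ X₂ := by have := hmin₂ p₀ h.m0; rw [l20] at this; linarith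
  have X₀A : X₀ ≤ A := by have := lo₀ a₀ ha₀; linarith
  have X₁A : X₁ ≤ A := by have := lo₁ a₁ ha₁; linarith
  have X₂A : X₂ ≤ A := by have := lo₂ a₂ ha₂; linarith
  -- the area of `Q`
  have hvol : ENNReal.ofReal ((A + X₀ + X₁ + X₂) / 2) ≤ volume Q := by
    have hm : MeasurableSet Q := hcomp.isClosed.measurableSet
    set R₀ := Q ∩ {x | l₀ x < 0} with hR₀
    set R₁ := Q ∩ {x | l₁ x < 0} with hR₁
    set R₂ := Q ∩ {x | l₂ x < 0} with hR₂
    set R := Q ∩ {x | 0 < l₀ x ∧ 0 < l₁ x ∧ 0 < l₂ x} with hR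
    have hmR₀ : MeasurableSet R₀ := hm.inter (isOpen_lt hc₀ continuous_const).measurableSet
    have hmR₁ : MeasurableSet R₁ := hm.inter (isOpen_lt hc₁ continuous_const).measurableSet
    have hmR₂ : MeasurableSet R₂ := hm.inter (isOpen_lt hc₂ continuous_const).measurableSet
    have v0 : ENNReal.ofReal (X₀ / 2) ≤ volume R₀ := by
      rcases X₀0.lt_or_eq with hx | hx
      · have h1 : |area2 a₀ p₁ p₂| = X₀ := by
          have : area2 a₀ p₁ p₂ = -X₀ := by rw [hX₀]; simp only [hl₀]; ring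
          rw [this, abs_neg, abs_of_pos hx]
        rw [← h1, ← vol_triMap]
        apply measure_mono
        rintro _ ⟨s, hs, rfl⟩
        refine ⟨triMap_mem hconv ha₀ h.m1 h.m2 hs, ?_⟩
        obtain ⟨s0, s1, s2⟩ := hs
        have e : l₀ (triMap a₀ p₁ p₂ s) = (1 - s 0 - s 1) * l₀ a₀ + s 0 * l₀ p₁ + s 1 * l₀ p₂ :=
          area2_triMap_left _ _ _ _ _ _
        rw [Set.mem_ofPred_eq, e, l01, l02]
        have : l₀ a₀ = -X₀ := by rw [hX₀]; ring
        rw [this]
        have h5 : 0 < (1 - s 0 - s 1) * X₀ := mul_pos (by linarith) hx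
        linarith
      · rw [← hx]; simp
    have v1 : ENNReal.ofReal (X₁ / 2) ≤ volume R₁ := by
      rcases X₁0.lt_or_eq with hx | hx
      · have h1 : |area2 a₁ p₂ p₀| = X₁ := by
          have : area2 a₁ p₂ p₀ = -X₁ := by rw [hX₁]; simp only [hl₁]; ring
          rw [this, abs_neg, abs_of_pos hx]
        rw [← h1, ← vol_triMap]
        apply measure_mono
        rintro _ ⟨s, hs, rfl⟩
        refine ⟨triMap_mem hconv ha₁ h.m2 h.m0 hs, ?_⟩
        obtain ⟨s0, s1, s2⟩ := hs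
        have e : l₁ (triMap a₁ p₂ p₀ s) = (1 - s 0 - s 1) * l₁ a₁ + s 0 * l₁ p₂ + s 1 * l₁ p₀ :=
          area2_triMap_left _ _ _ _ _ _
        rw [Set.mem_ofPred_eq, e, l12, l10]
        have : l₁ a₁ = -X₁ := by rw [hX₁]; ring
        rw [this]
        have h5 : 0 < (1 - s 0 - s 1) * X₁ := mul_pos (by linarith) hx
        linarith
      · rw [← hx]; simp
    have v2 : ENNReal.ofReal (X₂ / 2) ≤ volume R₂ := by
      rcases X₂0.lt_or_eq with hx | hx
      · have h1 : |area2 a₂ p₀ p₁| = X₂ := by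
          have : area2 a₂ p₀ p₁ = -X₂ := by rw [hX₂]; simp only [hl₂]; ring
          rw [this, abs_neg, abs_of_pos hx]
        rw [← h1, ← vol_triMap]
        apply measure_mono
        rintro _ ⟨s, hs, rfl⟩
        refine ⟨triMap_mem hconv ha₂ h.m0 h.m1 hs, ?_⟩
        obtain ⟨s0, s1, s2⟩ := hs
        have e : l₂ (triMap a₂ p₀ p₁ s) = (1 - s 0 - s 1) * l₂ a₂ + s 0 * l₂ p₀ + s 1 * l₂ p₁ :=
          area2_triMap_left _ _ _ _ _ _
        rw [Set.mem_ofPred_eq, e, l20, l21]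
        have : l₂ a₂ = -X₂ := by rw [hX₂]; ring
        rw [this]
        have h5 : 0 < (1 - s 0 - s 1) * X₂ := mul_pos (by linarith) hx
        linarith
      · rw [← hx]; simp
    have v : ENNReal.ofReal (A / 2) ≤ volume R := by
      have h1 : |area2 p₀ p₁ p₂| = A := by rw [hA, abs_of_pos hA0]
      rw [← h1, ← vol_triMap]
      apply measure_mono
      rintro _ ⟨s, hs, rfl⟩
      refine ⟨triMap_mem hconv h.m0 h.m1 h.m2 hs, ?_⟩
      obtain ⟨s0, s1, s2⟩ := hs
      have e0 : l₀ (triMap p₀ p₁ p₂ s) = (1 - s 0 - s 1) * l₀ p₀ + s 0 * l₀ p₁ + s 1 * l₀ p₂ :=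
        area2_triMap_left _ _ _ _ _ _
      have e1 : l₁ (triMap p₀ p₁ p₂ s) = (1 - s 0 - s 1) * l₁ p₀ + s 0 * l₁ p₁ + s 1 * l₁ p₂ :=
        area2_triMap_left _ _ _ _ _ _
      have e2 : l₂ (triMap p₀ p₁ p₂ s) = (1 - s 0 - s 1) * l₂ p₀ + s 0 * l₂ p₁ + s 1 * l₂ p₂ :=
        area2_triMap_left _ _ _ _ _ _
      rw [Set.mem_ofPred_eq, e0, e1, e2, l00, l01, l02, l10, l11, l12, l20, l21, l22]
      have h5 : 0 < (1 - s 0 - s 1) * A := mul_pos (by linarith) hA0
      have h6 : 0 < s 0 * A := mul_pos s0 hA0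
      have h7 : 0 < s 1 * A := mul_pos s1 hA0
      refine ⟨by linarith, by linarith, by linarith⟩
    -- disjointness
    have d0 : Disjoint R R₀ := Set.disjoint_left.2 (fun x hx hx' => by
      have h1 := hx.2.1; have h2 : l₀ x < 0 := hx'.2; linarith)
    have d1 : Disjoint (R ∪ R₀) R₁ := Set.disjoint_left.2 (fun x hx hx' => by
      have h2 : l₁ x < 0 := hx'.2
      rcases hx with hx | hx
      · have h1 := hx.2.2.1; linarith
      · have h1 : l₀ x < 0 := hx.2
        have h3 := u₂ x hx.1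
        have h4 := hsum x
        linarith)
    have d2 : Disjoint (R ∪ R₀ ∪ R₁) R₂ := Set.disjoint_left.2 (fun x hx hx' => by
      have h2 : l₂ x < 0 := hx'.2
      rcases hx with (hx | hx) | hx
      · have h1 := hx.2.2.2; linarith
      · have h1 : l₀ x < 0 := hx.2
        have h3 := u₁ x hx.1
        have h4 := hsum x
        linarith
      · have h1 : l₁ x < 0 := hx.2
        have h3 := u₀ x hx.1
        have h4 := hsum x
        linarith)
    calc ENNReal.ofReal ((A + X₀ + X₁ + X₂) / 2)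
        = ENNReal.ofReal (A / 2) + ENNReal.ofReal (X₀ / 2) + ENNReal.ofReal (X₁ / 2) +
          ENNReal.ofReal (X₂ / 2) := by
          rw [← ENNReal.ofReal_add (by positivity) (by positivity),
            ← ENNReal.ofReal_add (by positivity) (by positivity),
            ← ENNReal.ofReal_add (by positivity) (by positivity)]
          congr 1; ring
      _ ≤ volume R + volume R₀ + volume R₁ + volume R₂ := by gcongr
      _ = volume (R ∪ R₀ ∪ R₁ ∪ R₂) := by
          rw [measure_union d2 hmR₂, measure_union d1 hmR₁, measure_union d0 hmR₀]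
      _ ≤ volume Q := by
          apply measure_mono
          rintro x (((hx | hx) | hx) | hx) <;> exact hx.1
  -- the lattice
  set E₀ := (A + X₁ + X₂ - X₀) / 2 with hE₀
  set E₁ := (A + X₀ + X₂ - X₁) / 2 with hE₁
  set E₂ := (A + X₀ + X₁ - X₂) / 2 with hE₂
  have E₀0 : 0 ≤ E₀ := by rw [hE₀]; linarith
  have E₁0 : 0 ≤ E₁ := by rw [hE₁]; linarith
  have E₂0 : 0 ≤ E₂ := by rw [hE₂]; linarith
  set t₁ : P2 := (-(E₁ + E₂) / A) • p₀ + (E₂ / A) • p₁ + (E₁ / A) • p₂ with ht₁
  set t₂ : P2 := (E₂ / A) • p₀ + (-(E₂ + E₀) / A) • p₁ + (E₀ / A) • p₂ with ht₂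
  have hAne : A ≠ 0 := hA0.ne'
  have hdet : det2 t₁ t₂ = (E₀ * E₁ + E₀ * E₂ + E₁ * E₂) / A := by
    have e : det2 t₁ t₂ = (E₀ * E₁ + E₀ * E₂ + E₁ * E₂) / A ^ 2 * area2 p₀ p₁ p₂ := by
      simp only [ht₁, ht₂, det2, area2, Pi.sub_apply, Pi.add_apply, Pi.smul_apply, smul_eq_mul]
      field_simp
      ring
    rw [e, hA]
    field_simp
  have hpos : 0 < E₀ * E₁ + E₀ * E₂ + E₁ * E₂ := by
    have e1 : E₁ + E₂ = A + X₀ := by rw [hE₁, hE₂]; ring
    have e2 : E₀ + E₂ = A + X₁ := by rw [hE₀, hE₂]; ring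
    have e3 : E₀ + E₁ = A + X₂ := by rw [hE₀, hE₁]; ring
    rcases E₀0.lt_or_eq with h1 | h1
    · have : 0 < E₀ * (E₁ + E₂) := mul_pos h1 (by linarith)
      have h2 : 0 ≤ E₁ * E₂ := mul_nonneg E₁0 E₂0
      linarith
    · rw [← h1] at e2 e3 ⊢
      have : 0 < E₁ * E₂ := mul_pos (by linarith) (by linarith)
      linarith
  refine ⟨t₁, t₂, ?_, ?_, ?_⟩
  · rw [hdet]
    exact div_pos hpos hA0
  · calc ENNReal.ofReal (det2 t₁ t₂)
        ≤ ENNReal.ofReal (3 / 2 * ((A + X₀ + X₁ + X₂) / 2)) := by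
          apply ENNReal.ofReal_le_ofReal
          rw [hdet, div_le_iff₀ hA0]
          have e : E₀ * E₁ + E₀ * E₂ + E₁ * E₂ = (3 * A ^ 2 + 2 * A * (X₀ + X₁ + X₂) +
              (X₀ + X₁ + X₂) ^ 2 - 2 * (X₀ ^ 2 + X₁ ^ 2 + X₂ ^ 2)) / 4 := by
            rw [hE₀, hE₁, hE₂]; ring
          rw [e]
          have h1 : (X₀ + X₁ + X₂) ^ 2 ≤ 3 * (X₀ ^ 2 + X₁ ^ 2 + X₂ ^ 2) := by
            nlinarith [sq_nonneg (X₀ - X₁), sq_nonneg (X₀ - X₂), sq_nonneg (X₁ - X₂)]
          have h2 : (X₀ + X₁ + X₂) ^ 2 ≤ (3 * A) * (X₀ + X₁ + X₂) := by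
            rw [sq]
            exact mul_le_mul_of_nonneg_right (by linarith) (by linarith)
          linarith
      _ = ENNReal.ofReal (3 / 2) * ENNReal.ofReal ((A + X₀ + X₁ + X₂) / 2) := by
          rw [ENNReal.ofReal_mul (by norm_num)]
      _ ≤ _ := by gcongr
  · -- displacements
    intro m n hmn x hx y hy hxy
    have disp : ∀ p q : P2, area2 x p q - area2 y p q = det2 (x - y) (p - q) := by
      intro p q
      simp only [area2, det2, Pi.sub_apply]; ring
    have f₀ : l₀ x - l₀ y = -(m * (E₁ + E₂) - n * E₂) := by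
      have h1 : l₀ x - l₀ y = det2 (x - y) (p₁ - p₂) := disp p₁ p₂
      rw [h1, hxy]
      have e : det2 ((m : ℝ) • t₁ + (n : ℝ) • t₂) (p₁ - p₂) =
          -(m * (E₁ + E₂) - n * E₂) / A * area2 p₀ p₁ p₂ := by
        simp only [ht₁, ht₂, det2, area2, Pi.sub_apply, Pi.add_apply, Pi.smul_apply, smul_eq_mul]
        field_simp
        ring
      rw [e, hA]
      field_simp
    have f₁ : l₁ x - l₁ y = m * E₂ - n * (E₂ + E₀) := by
      have h1 : l₁ x - l₁ y = det2 (x - y) (p₂ - p₀) := disp p₂ p₀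
      rw [h1, hxy]
      have e : det2 ((m : ℝ) • t₁ + (n : ℝ) • t₂) (p₂ - p₀) =
          (m * E₂ - n * (E₂ + E₀)) / A * area2 p₀ p₁ p₂ := by
        simp only [ht₁, ht₂, det2, area2, Pi.sub_apply, Pi.add_apply, Pi.smul_apply, smul_eq_mul]
        field_simp
        ring
      rw [e, hA]
      field_simp
    have f₂ : l₂ x - l₂ y = m * E₁ + n * E₀ := by
      have h3 := hsum x
      have h4 := hsum y
      linarith
    -- strict bounds in the interior
    have str : ∀ (l : P2 → ℝ) (p q d : P2), (∀ z, l z = area2 z p q) → det2 d (p - q) = A →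
        (∀ z ∈ Q, l z ≤ A) → ∀ z ∈ interior Q, l z < A := by
      intro l p q d hl hd hC z hz
      refine lt_of_interior (d := (1 / A) • d) ?_ hC hz
      intro w r
      rw [hl, hl]
      have : area2 (w + r • (1 / A) • d) p q = area2 w p q + r / A * det2 d (p - q) := by
        simp only [area2, det2, Pi.sub_apply, Pi.add_apply, Pi.smul_apply, smul_eq_mul]
        ring
      rw [this, hd, div_mul_cancel₀ _ hAne]
    have s₀ : ∀ z ∈ interior Q, l₀ z < A := str l₀ p₁ p₂ (p₀ - p₁) (fun _ => rfl) (by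
      rw [← hA]; simp only [area2, det2, Pi.sub_apply]; ring) u₀
    have s₁ : ∀ z ∈ interior Q, l₁ z < A := str l₁ p₂ p₀ (p₁ - p₂) (fun _ => rfl) (by
      rw [← hA]; simp only [area2, det2, Pi.sub_apply]; ring) u₁
    have s₂ : ∀ z ∈ interior Q, l₂ z < A := str l₂ p₀ p₁ (p₂ - p₀) (fun _ => rfl) (by
      rw [← hA]; simp only [area2, det2, Pi.sub_apply]; ring) u₂
    have b₀ : ∀ z ∈ interior Q, ∀ w ∈ interior Q, l₀ z - l₀ w < E₁ + E₂ := by
      intro z hz w hw
      have h1 := s₀ z hz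
      have h2 := hmin₀ w (interior_subset hw)
      rw [hE₁, hE₂]; linarith
    have b₁ : ∀ z ∈ interior Q, ∀ w ∈ interior Q, l₁ z - l₁ w < E₀ + E₂ := by
      intro z hz w hw
      have h1 := s₁ z hz
      have h2 := hmin₁ w (interior_subset hw)
      rw [hE₀, hE₂]; linarith
    have b₂ : ∀ z ∈ interior Q, ∀ w ∈ interior Q, l₂ z - l₂ w < E₀ + E₁ := by
      intro z hz w hw
      have h1 := s₂ z hz
      have h2 := hmin₂ w (interior_subset hw)
      rw [hE₀, hE₁]; linarith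
    have B₀ := b₀ x hx y hy
    have B₀' := b₀ y hy x hx
    have B₁ := b₁ x hx y hy
    have B₁' := b₁ y hy x hx
    have B₂ := b₂ x hx y hy
    have B₂' := b₂ y hy x hx
    rw [f₀] at B₀
    rw [f₁] at B₁
    rw [f₂] at B₂
    rw [show l₀ y - l₀ x = m * (E₁ + E₂) - n * E₂ by linarith] at B₀'
    rw [show l₁ y - l₁ x = -(m * E₂ - n * (E₂ + E₀)) by linarith] at B₁'
    rw [show l₂ y - l₂ x = -(m * E₁ + n * E₀) by linarith] at B₂'
    -- case analysis on signs
    have cast_ge : ∀ k : ℤ, 0 < k → (1 : ℝ) ≤ k := fun k hk => by exact_mod_cast hk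
    have cast_le : ∀ k : ℤ, k < 0 → (k : ℝ) ≤ -1 := fun k hk => by
      have : k ≤ -1 := by omega
      exact_mod_cast this
    rcases lt_trichotomy m 0 with hm | hm | hm <;> rcases lt_trichotomy n 0 with hn | hn | hn
    · have h1 := cast_le m hm
      have h2 := cast_le n hn
      have h3 := mul_le_mul_of_nonneg_right h1 E₁0
      have h4 := mul_le_mul_of_nonneg_right h2 E₀0
      linarith
    · have h1 := cast_le m hm
      have h3 := mul_le_mul_of_nonneg_right h1 (add_nonneg E₁0 E₂0)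
      rw [hn] at B₀
      push_cast at B₀
      linarith
    · have h1 := cast_le m hm
      have h2 := cast_ge n hn
      have h3 := mul_le_mul_of_nonneg_right h1 (add_nonneg E₁0 E₂0)
      have h4 := mul_nonneg (show (0 : ℝ) ≤ n by linarith) E₂0
      linarith
    · have h2 := cast_le n hn
      have h3 := mul_le_mul_of_nonneg_right h2 (add_nonneg E₂0 E₀0)
      rw [hm] at B₁
      push_cast at B₁
      linarith
    · rcases hmn with h | h
      · exact h hm
      · exact h hn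
    · have h2 := cast_ge n hn
      have h3 := mul_le_mul_of_nonneg_right h2 (add_nonneg E₂0 E₀0)
      rw [hm] at B₁'
      push_cast at B₁'
      linarith
    · have h1 := cast_ge m hm
      have h2 := cast_le n hn
      have h3 := mul_le_mul_of_nonneg_right h1 (add_nonneg E₁0 E₂0)
      have h4 := mul_nonneg (show (0 : ℝ) ≤ -n by linarith) E₂0
      linarith
    · have h1 := cast_ge m hm
      have h3 := mul_le_mul_of_nonneg_right h1 (add_nonneg E₁0 E₂0)
      rw [hn] at B₀'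
      push_cast at B₀'
      linarith
    · have h1 := cast_ge m hm
      have h2 := cast_ge n hn
      have h3 := mul_le_mul_of_nonneg_right h1 E₁0
      have h4 := mul_le_mul_of_nonneg_right h2 E₀0
      linarith

end Pool.Agent.Helper59.Pack
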