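import Pool.Agent.Helper59.Pack.Key
import Pool.Agent.Helper59.Pack.Planar

/-!
# Lower bounds for the lattice and double-lattice packing densities in space
-/

set_option autoImplicit false
namespace Pool.Agent.Helper59.Pack
open MeasureTheory Metric
open Pool.Agent.Helper69.MD
open scoped ENNReal

/-- The weight of a point of the plane. -/
noncomputable def fr (K : Set E3) (H : ℝ) (y : P2) : ℝ :=
  2 / (3 * H) * min (len K y) (H / 2) + if H / 2 < len K y then 2 / 3 else 0

theorem fr_nonneg {K : Set E3} {H : ℝ} (hH : 0 < H) (y : P2) : 0 ≤ fr K H y := by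
  unfold fr
  have h1 : 0 ≤ min (len K y) (H / 2) := le_min (len_nonneg K y) (by positivity)
  split_ifs <;> positivity

theorem measurable_fr {K : Set E3} (hK : IsConvexBody K) (H : ℝ) : Measurable (fr K H) := by
  unfold fr
  apply Measurable.add
  · exact ((measurable_len hK).min measurable_const).const_mul _
  · exact Measurable.ite (measurableSet_lt measurable_const (measurable_len hK))
      measurable_const measurable_const

theorem integrable_fr {K : Set E3} (hK : IsConvexBody K) {H : ℝ} (hH : 0 < H) :
    Integrable (fr K H) := by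
  refine integrable_comp hK
    (ψ := fun t => 2 / (3 * H) * min t (H / 2) + if H / 2 < t then (2 / 3 : ℝ) else 0) ?_ ?_
    (C := 1) ?_
  · apply Measurable.add
    · exact (measurable_id.min measurable_const).const_mul _
    · exact Measurable.ite (measurableSet_lt measurable_const measurable_id)
        measurable_const measurable_const
  · rw [min_eq_left (by positivity), if_neg (not_lt.2 (by positivity))]
    simp
  · intro y
    have h1 : 0 ≤ min (len K y) (H / 2) := le_min (len_nonneg K y) (by positivity)
    have h2 : 2 / (3 * H) * min (len K y) (H / 2) ≤ 1 / 3 := by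
      calc 2 / (3 * H) * min (len K y) (H / 2) ≤ 2 / (3 * H) * (H / 2) := by
            gcongr
            exact min_le_right _ _
        _ = 1 / 3 := by field_simp
    have h3 : 0 ≤ 2 / (3 * H) * min (len K y) (H / 2) := by positivity
    split_ifs
    · rw [abs_of_nonneg (by linarith)]; linarith
    · rw [abs_of_nonneg (by linarith)]; linarith

theorem good_of_integral {K : Set E3} (hK : IsConvexBody K) {t₁ t₂ : P2} {D H : ℝ}
    (hD : det2 t₁ t₂ = D) (hD0 : 0 < D) (hH : 0 < H) (hint : 4 * ∫ y, fr K H y < D) :
    ∃ w : P2, ∀ m n : Fin 4 → ℤ, Function.Injective (fun i => (m i, n i)) →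
      (∀ i, 2 * len K ((1 / 2 : ℝ) • (w + (m i : ℝ) • t₁ + (n i : ℝ) • t₂)) ≤ H) ∧
      2 * ∑ i, len K ((1 / 2 : ℝ) • (w + (m i : ℝ) • t₁ + (n i : ℝ) • t₂)) ≤ 3 * H := by
  have h1 : 4 * ∫⁻ y, ENNReal.ofReal (fr K H y) < ENNReal.ofReal D := by
    rw [← ofReal_integral_eq_lintegral_ofReal (integrable_fr hK hH)
      (Filter.Eventually.of_forall (fun y => fr_nonneg hH y))]
    rw [show (4 : ℝ≥0∞) = ENNReal.ofReal 4 by simp, ← ENNReal.ofReal_mul (by norm_num)]
    exact (ENNReal.ofReal_lt_ofReal_iff hD0).2 hint
  obtain ⟨w, hw⟩ := exists_good_point t₁ t₂ hD hD0 (measurable_fr hK H).ennreal_ofReal h1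
  refine ⟨w, fun m n hinj => ?_⟩
  have h2 := hw m n hinj
  set z : Fin 4 → P2 := fun i => (1 / 2 : ℝ) • (w + (m i : ℝ) • t₁ + (n i : ℝ) • t₂) with hz
  have h3 : ∑ i, fr K H (z i) < 1 := by
    have h4 : ∑ i, ENNReal.ofReal (fr K H (z i)) = ENNReal.ofReal (∑ i, fr K H (z i)) :=
      (ENNReal.ofReal_sum_of_nonneg (fun i _ => fr_nonneg hH _)).symm
    have h5 : ENNReal.ofReal (∑ i, fr K H (z i)) < ENNReal.ofReal 1 := by
      rw [← h4, ENNReal.ofReal_one]; exact h2
    exact (ENNReal.ofReal_lt_ofReal_iff one_pos).1 h5
  have h6 : ∀ i, 2 * len K (z i) ≤ H := by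
    intro i
    by_contra hcon
    push Not at hcon
    have h7 : fr K H (z i) = 1 := by
      unfold fr
      rw [min_eq_right (by linarith), if_pos (by linarith)]
      field_simp
      norm_num
    have h8 : fr K H (z i) ≤ ∑ j, fr K H (z j) :=
      Finset.single_le_sum (fun j _ => fr_nonneg hH _) (Finset.mem_univ i)
    linarith
  refine ⟨h6, ?_⟩
  have h7 : ∀ i, fr K H (z i) = 2 / (3 * H) * len K (z i) := by
    intro i
    have := h6 i
    unfold fr
    rw [min_eq_left (by linarith), if_neg (by linarith), add_zero]
  have h8 : 2 / (3 * H) * ∑ i, len K (z i) < 1 := by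
    rw [Finset.mul_sum]
    simpa only [h7] using h3
  have h9 : 2 / (3 * H) * ∑ i, len K (z i) = (2 * ∑ i, len K (z i)) / (3 * H) := by ring
  rw [h9, div_lt_one (by positivity)] at h8
  exact h8.le

theorem exists_planar {K : Set E3} (hK : IsConvexBody K) {D : ℝ}
    (hD : 3 / 2 * (volume (proj K)).toReal ≤ D) :
    ∃ t₁ t₂ : P2, det2 t₁ t₂ = D ∧ PlanarPacking K t₁ t₂ := by
  obtain ⟨t₁, t₂, hpos, hle, hpack⟩ := fary (proj_convex hK) (proj_compact hK) (proj_interior hK)
  set d := det2 t₁ t₂ with hd
  have hfin : volume (proj K) ≠ ⊤ := (proj_compact hK).measure_lt_top.ne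
  have hdD : d ≤ D := by
    have h1 : d ≤ 3 / 2 * (volume (proj K)).toReal := by
      have h2 : ENNReal.ofReal d ≤ ENNReal.ofReal (3 / 2 * (volume (proj K)).toReal) := by
        rw [ENNReal.ofReal_mul (by norm_num), ENNReal.ofReal_toReal hfin]
        exact hle
      exact (ENNReal.ofReal_le_ofReal_iff (by positivity)).1 h2
    linarith
  set ρ := Real.sqrt (D / d) with hρ
  have hρ1 : 1 ≤ ρ := by
    rw [hρ, Real.one_le_sqrt, one_le_div hpos]
    exact hdD
  have hρ0 : 0 < ρ := by linarith
  have hρ2 : ρ * ρ = D / d := Real.mul_self_sqrt (div_nonneg (by linarith) hpos.le)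
  refine ⟨ρ • t₁, ρ • t₂, ?_, ?_⟩
  · have e : det2 (ρ • t₁) (ρ • t₂) = (ρ * ρ) * d := by
      rw [hd]
      simp only [det2, Pi.smul_apply, smul_eq_mul]
      ring
    rw [e, hρ2, div_mul_cancel₀ _ hpos.ne']
  · intro m n hmn x hx y hy hxy
    have hx' := pr_interior hx
    have hy' := pr_interior hy
    have hz : (1 / ρ) • pr x + (1 - 1 / ρ) • pr y ∈ interior (proj K) :=
      (proj_convex hK).interior hx' hy' (by positivity)
        (sub_nonneg.2 ((div_le_one hρ0).2 hρ1)) (by ring)
    refine hpack m n hmn _ hz _ hy' ?_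
    have e : (1 / ρ) • pr x + (1 - 1 / ρ) • pr y - pr y = (1 / ρ) • (pr x - pr y) := by
      module
    rw [e, hxy]
    simp only [smul_add, smul_smul]
    congr 2 <;> field_simp

theorem star_of {K : Set E3} (hK : IsConvexBody K) {D H β : ℝ} (hβ : 0 ≤ β) (hH : 0 < H)
    (hlen : ∀ y, len K y ≤ H) (hD : 3 / 2 * (volume (proj K)).toReal ≤ D) (hD0 : 0 < D)
    (hint : 4 * ∫ y, fr K H y < D) (hdens : β * (H * D) ≤ 2 * (volume K).toReal) :
    ENNReal.ofReal β ≤ deltaLstar K := by
  obtain ⟨t₁, t₂, hdet, hpack⟩ := exists_planar hK hD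
  refine le_trans ?_ (deltaLstar_ge hK hdet hD0 hH hpack hlen
    (good_of_integral hK hdet hD0 hH hint))
  have hHD : 0 < H * D := mul_pos hH hD0
  rw [ENNReal.le_div_iff_mul_le (Or.inl (ENNReal.ofReal_pos.2 hHD).ne')
    (Or.inl ENNReal.ofReal_ne_top), ← ENNReal.ofReal_mul hβ]
  refine le_trans (ENNReal.ofReal_le_ofReal hdens) (le_of_eq ?_)
  rw [ENNReal.ofReal_mul (by norm_num), ENNReal.ofReal_toReal hK.isCompact.measure_lt_top.ne]
  simp

theorem proj_pos {K : Set E3} (hK : IsConvexBody K) : 0 < (volume (proj K)).toReal := by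
  apply ENNReal.toReal_pos
  · exact (lt_of_lt_of_le (isOpen_interior.measure_pos volume (proj_interior hK))
      (measure_mono interior_subset)).ne'
  · exact (proj_compact hK).measure_lt_top.ne

/-- `δ_L(K) ≥ 2/9`. -/
theorem deltaL_lower {K : Set E3} (hK : IsConvexBody K) :
    ENNReal.ofReal (2 / 9) ≤ deltaL K := by
  obtain ⟨c, hc0, hmax⟩ := exists_max hK
  set M := len K c with hM
  set a := (volume (proj K)).toReal with ha
  have ha0 : 0 < a := proj_pos hK
  obtain ⟨t₁, t₂, hdet, hpack⟩ := exists_planar hK (D := 3 / 2 * a) le_rfl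
  have hD0 : 0 < 3 / 2 * a := by positivity
  let d : LatData := ⟨t₁, t₂, 0, 0, M, by rw [hdet]; exact hD0, hc0⟩
  refine le_trans ?_ (deltaL_ge hK d hpack hmax)
  change _ ≤ volume K / ENNReal.ofReal (M * det2 t₁ t₂)
  rw [hdet]
  have hHD : 0 < M * (3 / 2 * a) := mul_pos hc0 hD0
  rw [ENNReal.le_div_iff_mul_le (Or.inl (ENNReal.ofReal_pos.2 hHD).ne')
    (Or.inl ENNReal.ofReal_ne_top), ← ENNReal.ofReal_mul (by norm_num)]
  have h1 := kappa_ge hK hM.symm hc0
  rw [le_div_iff₀ hc0] at h1
  rw [← ENNReal.ofReal_toReal hK.isCompact.measure_lt_top.ne]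
  apply ENNReal.ofReal_le_ofReal
  rw [← ha] at h1
  linarith

/-- `δ_{L*}(K) ≥ 41/100`. -/
theorem deltaLstar_lower {K : Set E3} (hK : IsConvexBody K) :
    ENNReal.ofReal (41 / 100) ≤ deltaLstar K := by
  obtain ⟨c, hc0, hmax⟩ := exists_max hK
  set M := len K c with hM
  set a := (volume (proj K)).toReal with ha
  set V := (volume K).toReal with hV
  have ha0 : 0 < a := proj_pos hK
  have hVMa : V ≤ M * a := vol_le hK hmax
  have hκ : 1 / 3 * a ≤ V / M := kappa_ge hK hM.symm hc0
  have hκ' : 1 / 3 * a * M ≤ V := by rwa [le_div_iff₀ hc0] at hκ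
  have hMa : 0 < M * a := mul_pos hc0 ha0
  have hV0 : 0 < V := by
    have : 0 < 1 / 3 * a * M := by positivity
    linarith
  by_cases hA : 615 / 1000 * (M * a) ≤ V
  · -- the bulky case
    refine star_of hK (D := 3 / 2 * a) (H := 2 * M) (by norm_num) (by positivity)
      (fun y => (hmax y).trans (by linarith)) le_rfl (by positivity) ?_ (by rw [← hV]; linarith)
    have e : ∫ y, fr K (2 * M) y = V / (3 * M) := by
      have h1 : ∀ y, fr K (2 * M) y = len K y / (3 * M) := by
        intro y
        have h2 := hmax y
        unfold fr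
        rw [min_eq_left (by linarith), if_neg (by linarith), add_zero]
        field_simp
      simp only [h1]
      rw [integral_div, integral_len hK]
    rw [e]
    have h2 : V / (3 * M) ≤ a / 3 := by
      rw [div_le_div_iff₀ (by positivity) (by norm_num)]
      linarith
    linarith
  · push Not at hA
    set s := V / (615 / 1000 * (M * a)) with hs
    have hsV : s * (615 / 1000 * (M * a)) = V := div_mul_cancel₀ _ (by positivity)
    have hs1 : s < 1 := (div_lt_one (by positivity)).2 hA
    have hs0 : 27 / 50 ≤ s := by
      rw [hs, le_div_iff₀ (by positivity)]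
      linarith
    have hspos : 0 < s := by linarith
    by_cases hB : 4 * ∫ y, fr K M y < 2 * V / (41 / 100 * M)
    · refine star_of hK (D := 2 * V / (41 / 100 * M)) (H := M) (by norm_num) hc0 hmax ?_
        (by positivity) hB ?_
      · rw [← ha, le_div_iff₀ (by positivity)]
        linarith
      · rw [← hV]
        apply le_of_eq
        field_simp
    · by_cases hC : 4 * ∫ y, fr K (2 * s * M) y < 3 / 2 * a
      · refine star_of hK (D := 3 / 2 * a) (H := 2 * s * M) (by norm_num) (by positivity)
          (fun y => (hmax y).trans (by nlinarith)) le_rfl (by positivity) hC ?_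
        rw [← hV, ← hsV]
        apply le_of_eq
        ring
      · exfalso
        push Not at hB hC
        have hA₁ : ∫ y, fr K M y ≤ 2 / 3 * A₁ K M := by
          unfold A₁
          rw [← integral_const_mul]
          refine integral_mono (integrable_fr hK hc0) ((integrable_A₁ hK hc0).const_mul _) ?_
          intro y
          simp only [fr]
          have e1 : 2 / (3 * M) * min (len K y) (M / 2) = 2 / 3 * min (len K y / M) (1 / 2) := by
            have : min (len K y) (M / 2) = M * min (len K y / M) (1 / 2) := by
              rw [mul_min_of_nonneg _ _ hc0.le]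
              congr 1
              · field_simp
              · ring
            rw [this]
            field_simp
          rw [e1, mul_add]
          gcongr
          by_cases h : M / 2 < len K y
          · have h2 : 1 / 2 ≤ len K y / M := by
              rw [le_div_iff₀ hc0]; linarith
            rw [if_pos h, if_pos h2]
            norm_num
          · rw [if_neg h]
            split_ifs <;> norm_num
        have hA₂ : ∫ y, fr K (2 * s * M) y ≤ 1 / (3 * s) * A₂ K M s := by
          unfold A₂
          rw [← integral_const_mul]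
          refine integral_mono (integrable_fr hK (by positivity))
            ((integrable_A₂ hK hc0 hspos).const_mul _) ?_
          intro y
          simp only [fr]
          have e1 : 2 / (3 * (2 * s * M)) * min (len K y) (2 * s * M / 2) =
              1 / (3 * s) * min (len K y / M) s := by
            have : min (len K y) (2 * s * M / 2) = M * min (len K y / M) s := by
              rw [mul_min_of_nonneg _ _ hc0.le]
              congr 1
              · field_simp
              · ring
            rw [this]
            field_simp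
          rw [e1, mul_add]
          gcongr
          by_cases h : 2 * s * M / 2 < len K y
          · have h2 : s ≤ len K y / M := by
              rw [le_div_iff₀ hc0]; linarith
            rw [if_pos h, if_pos h2]
            apply le_of_eq
            field_simp
          · rw [if_neg h]
            split_ifs <;> positivity
        have hkey := key_main hK hM.symm hc0 hs0 hs1.le
        have hVM : V / M = 615 / 1000 * (s * a) := by
          rw [← hsV]
          field_simp
        have g1 : 9 / 8 * (s * a) ≤ A₁ K M := by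
          have h1 : 2 * V / (41 / 100 * M) = 3 * (s * a) := by
            rw [← hsV]
            field_simp
            norm_num
          rw [h1] at hB
          linarith
        have g2 : 9 / 8 * (s * a) ≤ A₂ K M s := by
          have h1 : 3 / 2 * a ≤ 4 * (1 / (3 * s) * A₂ K M s) := hC.trans (by linarith)
          have h2 : 4 * (1 / (3 * s) * A₂ K M s) = 4 * A₂ K M s / (3 * s) := by ring
          rw [h2, le_div_iff₀ (by positivity)] at h1
          linarith
        rw [← hV, ← ha, hVM] at hkey
        have k1 : (107 + 190 * s) / 1000 * (9 / 8 * (s * a)) ≤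
            (107 + 190 * s) / 1000 * A₁ K M := by gcongr
        have k2 : 0 < a * ((9 / 8 * s) * ((107 + 190 * s) / 1000 + 1 / 7) +
            (166 - 42 * s) / 1000 - 615 / 1000 * s) := by
          apply mul_pos ha0
          nlinarith [sq_nonneg (s - 879 / 1000)]
        nlinarith

end Pool.Agent.Helper59.Pack
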