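import Pool.Agent.Helper59.Pack.Pack3

/-!
# The function giving the lengths of the vertical sections of a convex body
-/

set_option autoImplicit false
namespace Pool.Agent.Helper59.Pack
open MeasureTheory Metric
open Pool.Agent.Helper69.MD
open scoped ENNReal

theorem mp_mk3 : MeasurePreserving (fun p : ℝ × P2 => mk3 p.2 p.1) := by
  have h := (PiLp.volume_preserving_toLp (Fin 3)).comp
    ((volume_preserving_piFinSuccAbove (fun _ : Fin 3 => ℝ) 2).symm _)
  have e : (fun p : ℝ × P2 => mk3 p.2 p.1) = (WithLp.toLp 2 : (Fin 3 → ℝ) → E3) ∘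
      (MeasurableEquiv.piFinSuccAbove (fun _ : Fin 3 => ℝ) 2).symm := by
    funext p
    apply E3_ext
    · rfl
    · rfl
    · rfl
  rw [e]
  exact h

theorem volume_eq {K : Set E3} (hK : IsConvexBody K) :
    volume K = ∫⁻ y : P2, volume (sec K y) := by
  have hm : MeasurableSet K := hK.isCompact.isClosed.measurableSet
  have h1 := mp_mk3.measure_preimage hm.nullMeasurableSet
  rw [← h1, Measure.volume_eq_prod, Measure.prod_apply_symm (mp_mk3.measurable hm)]
  rfl

/-- The projection of `K`. -/
def proj (K : Set E3) : Set P2 := pr '' K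

theorem continuous_pr : Continuous pr := by
  unfold pr
  apply continuous_pi
  intro i
  fin_cases i
  · change Continuous fun x : E3 => x 0
    fun_prop
  · change Continuous fun x : E3 => x 1
    fun_prop

theorem pr_add (x y : E3) : pr (x + y) = pr x + pr y := P2_ext rfl rfl
theorem pr_smul (c : ℝ) (x : E3) : pr (c • x) = c • pr x := P2_ext rfl rfl

/-- The projection as a linear map. -/
def prL : E3 →ₗ[ℝ] P2 where
  toFun := pr
  map_add' := pr_add
  map_smul' := pr_smul

theorem proj_compact {K : Set E3} (hK : IsConvexBody K) : IsCompact (proj K) :=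
  hK.isCompact.image continuous_pr

theorem proj_convex {K : Set E3} (hK : IsConvexBody K) : Convex ℝ (proj K) :=
  hK.convex.linear_image prL

theorem continuous_mk3_left (t : ℝ) : Continuous fun y : P2 => mk3 y t := by
  unfold mk3
  fun_prop

theorem pr_interior {K : Set E3} {x : E3} (hx : x ∈ interior K) : pr x ∈ interior (proj K) := by
  rw [mem_interior]
  refine ⟨(fun y : P2 => mk3 y (x 2)) ⁻¹' interior K, ?_,
    isOpen_interior.preimage (continuous_mk3_left _), ?_⟩
  · intro y hy
    exact ⟨mk3 y (x 2), interior_subset hy, pr_mk3 _ _⟩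
  · rw [Set.mem_preimage, mk3_pr]
    exact hx

theorem proj_interior {K : Set E3} (hK : IsConvexBody K) : (interior (proj K)).Nonempty := by
  obtain ⟨x, hx⟩ := hK.interior_nonempty
  exact ⟨pr x, pr_interior hx⟩

theorem len_ge {K : Set E3} (hK : IsConvexBody K) {y : P2} {a b : ℝ} (ha : mk3 y a ∈ K)
    (hb : mk3 y b ∈ K) : b - a ≤ len K y := by
  rcases le_or_gt b a with h | h
  · exact (by linarith : b - a ≤ 0).trans (len_nonneg K y)
  · have hsub : Set.Icc a b ⊆ sec K y := (sec_convex hK y).ordConnected.out ha hb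
    have h1 := measure_mono (μ := volume) hsub
    rw [Real.volume_Icc] at h1
    have h2 := (ENNReal.toReal_le_toReal ENNReal.ofReal_ne_top (sec_finite hK y)).2 h1
    rwa [ENNReal.toReal_ofReal (by linarith)] at h2

theorem len_mem {K : Set E3} (hK : IsConvexBody K) {y : P2} (hy : y ∈ proj K) :
    ∃ a b : ℝ, a ≤ b ∧ mk3 y a ∈ K ∧ mk3 y b ∈ K ∧ len K y = b - a := by
  obtain ⟨x, hx, hxy⟩ := hy
  have hne : (sec K y).Nonempty := ⟨x 2, by change mk3 y (x 2) ∈ K; rw [← hxy, mk3_pr]; exact hx⟩
  have hcomp : IsCompact (sec K y) :=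
    Metric.isCompact_of_isClosed_isBounded (sec_closed hK y) (sec_bounded hK y)
  have hle : sInf (sec K y) ≤ sSup (sec K y) := by
    obtain ⟨t, ht⟩ := hne
    exact (csInf_le hcomp.bddBelow ht).trans (le_csSup hcomp.bddAbove ht)
  have hs : sec K y = Set.Icc (sInf (sec K y)) (sSup (sec K y)) := by
    apply Set.Subset.antisymm
    · intro t ht
      exact ⟨csInf_le hcomp.bddBelow ht, le_csSup hcomp.bddAbove ht⟩
    · exact (sec_convex hK y).ordConnected.out (hcomp.sInf_mem hne) (hcomp.sSup_mem hne)
  refine ⟨sInf (sec K y), sSup (sec K y), hle, hcomp.sInf_mem hne, hcomp.sSup_mem hne, ?_⟩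
  rw [len]
  conv_lhs => rw [hs]
  rw [Real.volume_Icc, ENNReal.toReal_ofReal (by linarith)]

theorem len_off {K : Set E3} {y : P2} (hy : y ∉ proj K) : len K y = 0 := by
  have : sec K y = ∅ := by
    rw [Set.eq_empty_iff_forall_notMem]
    intro t ht
    exact hy ⟨mk3 y t, ht, pr_mk3 _ _⟩
  rw [len, this]
  simp

theorem len_concave {K : Set E3} (hK : IsConvexBody K) : ConcaveOn ℝ (proj K) (len K) := by
  refine ⟨proj_convex hK, ?_⟩
  intro y hy y' hy' α β hα hβ hαβ
  obtain ⟨a, b, -, ha, hb, hl⟩ := len_mem hK hy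
  obtain ⟨a', b', -, ha', hb', hl'⟩ := len_mem hK hy'
  have e : ∀ s t : ℝ, α • mk3 y s + β • mk3 y' t = mk3 (α • y + β • y') (α * s + β * t) := by
    intro s t
    apply E3_ext <;> simp
  have h1 := hK.convex ha ha' hα hβ hαβ
  have h2 := hK.convex hb hb' hα hβ hαβ
  rw [e] at h1 h2
  have h3 := len_ge hK h1 h2
  rw [hl, hl']
  simp only [smul_eq_mul]
  linarith

theorem superlevel_compact {K : Set E3} (hK : IsConvexBody K) {u : ℝ} (hu : 0 < u) :
    IsCompact {y | u ≤ len K y} := by
  have e : {y | u ≤ len K y} = (fun p : E3 × E3 => pr p.1) ''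
      ((K ×ˢ K) ∩ {p : E3 × E3 | pr p.1 = pr p.2 ∧ u ≤ p.2 2 - p.1 2}) := by
    ext y
    constructor
    · intro hy
      have hyp : y ∈ proj K := by
        by_contra h
        rw [Set.mem_ofPred_eq, len_off h] at hy
        linarith
      obtain ⟨a, b, -, ha, hb, hl⟩ := len_mem hK hyp
      refine ⟨(mk3 y a, mk3 y b), ⟨⟨ha, hb⟩, ?_, ?_⟩, pr_mk3 _ _⟩
      · simp
      · rw [Set.mem_ofPred_eq, hl] at hy
        simpa using hy
    · rintro ⟨⟨p, q⟩, ⟨⟨hp, hq⟩, hpq, hu'⟩, rfl⟩
      rw [Set.mem_ofPred_eq]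
      refine le_trans hu' (len_ge hK (y := pr p) ?_ ?_)
      · rw [mk3_pr]; exact hp
      · change pr p = pr q at hpq
        rw [hpq, mk3_pr]; exact hq
  rw [e]
  apply IsCompact.image
  · apply (hK.isCompact.prod hK.isCompact).inter_right
    apply IsClosed.inter
    · exact isClosed_eq (continuous_pr.comp continuous_fst) (continuous_pr.comp continuous_snd)
    · have hc : Continuous fun p : E3 × E3 => p.2 2 - p.1 2 := by fun_prop
      exact isClosed_le continuous_const hc
  · exact continuous_pr.comp continuous_fst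

theorem measurable_len {K : Set E3} (hK : IsConvexBody K) : Measurable (len K) := by
  apply measurable_of_Ici
  intro u
  rcases le_or_gt u 0 with h | h
  · have : len K ⁻¹' Set.Ici u = Set.univ := by
      ext y; simp only [Set.mem_preimage, Set.mem_Ici, Set.mem_univ, iff_true]
      exact h.trans (len_nonneg K y)
    rw [this]
    exact MeasurableSet.univ
  · exact (superlevel_compact hK h).isClosed.measurableSet

theorem len_bounded {K : Set E3} (hK : IsConvexBody K) : ∃ C, ∀ y, len K y ≤ C := by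
  obtain ⟨R, hR⟩ := hK.isCompact.isBounded.subset_closedBall (0 : E3)
  have hR0 : 0 ≤ R := by
    obtain ⟨x, hx⟩ := hK.interior_nonempty
    have := hR (interior_subset hx)
    rw [mem_closedBall_zero_iff] at this
    exact (norm_nonneg x).trans this
  refine ⟨2 * R, fun y => ?_⟩
  by_cases hy : y ∈ proj K
  · obtain ⟨a, b, -, ha, hb, hl⟩ := len_mem hK hy
    have h1 : ∀ t, mk3 y t ∈ K → |t| ≤ R := by
      intro t ht
      have h2 := hR ht
      rw [mem_closedBall_zero_iff] at h2
      calc |t| = ‖(mk3 y t) 2‖ := by simp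
        _ ≤ ‖mk3 y t‖ := PiLp.norm_apply_le _ _
        _ ≤ R := h2
    have h3 := abs_le.1 (h1 a ha)
    have h4 := abs_le.1 (h1 b hb)
    rw [hl]
    linarith [h3.1, h4.2]
  · rw [len_off hy]; linarith

theorem exists_max {K : Set E3} (hK : IsConvexBody K) :
    ∃ c, 0 < len K c ∧ ∀ y, len K y ≤ len K c := by
  -- some section has positive length
  obtain ⟨x, hx⟩ := hK.interior_nonempty
  have hpos : 0 < len K (pr x) := by
    obtain ⟨ε, hε, hball⟩ := Metric.isOpen_iff.1 (isOpen_interior.preimage (continuous_mk3 (pr x)))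
      (x 2) (show x 2 ∈ mk3 (pr x) ⁻¹' interior K by rw [Set.mem_preimage, mk3_pr]; exact hx)
    have h1 : mk3 (pr x) (x 2) ∈ K := by rw [mk3_pr]; exact interior_subset hx
    have h2 : mk3 (pr x) (x 2 + ε / 2) ∈ K := by
      apply interior_subset
      apply hball
      rw [mem_ball, Real.dist_eq, add_sub_cancel_left, abs_of_pos (by positivity)]
      linarith
    have h3 := len_ge hK h1 h2
    linarith
  obtain ⟨C, hC⟩ := len_bounded hK
  set M := sSup (Set.range (len K)) with hM
  have hbdd : BddAbove (Set.range (len K)) := ⟨C, by rintro _ ⟨y, rfl⟩; exact hC y⟩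
  have hne : (Set.range (len K)).Nonempty := ⟨_, pr x, rfl⟩
  have hMpos : 0 < M := lt_of_lt_of_le hpos (le_csSup hbdd ⟨_, rfl⟩)
  -- nested compact sets
  have hex : (⋂ n : ℕ, {y | M * (1 - 1 / (n + 2 : ℝ)) ≤ len K y}).Nonempty := by
    have hpos' : ∀ n : ℕ, 0 < M * (1 - 1 / (n + 2 : ℝ)) := by
      intro n
      apply mul_pos hMpos
      have : (1 : ℝ) / (n + 2) < 1 := by
        rw [div_lt_one (by positivity)]
        have : (0 : ℝ) ≤ n := Nat.cast_nonneg n
        linarith
      linarith
    apply IsCompact.nonempty_iInter_of_sequence_nonempty_isCompact_isClosed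
    · intro n y hy
      rw [Set.mem_ofPred_eq] at hy ⊢
      refine le_trans ?_ hy
      apply mul_le_mul_of_nonneg_left _ hMpos.le
      have : (1 : ℝ) / ((n + 1 : ℕ) + 2) ≤ 1 / (n + 2) := by
        apply one_div_le_one_div_of_le (by positivity)
        push_cast
        linarith
      linarith
    · intro n
      have hlt : M * (1 - 1 / (n + 2 : ℝ)) < M := by
        have : (0 : ℝ) < 1 / (n + 2) := by positivity
        nlinarith
      obtain ⟨_, ⟨y, rfl⟩, hy⟩ := exists_lt_of_lt_csSup hne hlt
      exact ⟨y, hy.le⟩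
    · exact superlevel_compact hK (hpos' 0)
    · intro n
      exact (superlevel_compact hK (hpos' n)).isClosed
  obtain ⟨c, hc⟩ := hex
  rw [Set.mem_iInter] at hc
  have hcM : M ≤ len K c := by
    have hlim : Filter.Tendsto (fun n : ℕ => M * (1 - 1 / (n + 2 : ℝ))) Filter.atTop
        (nhds (M * (1 - 0))) := by
      apply Filter.Tendsto.const_mul
      apply Filter.Tendsto.const_sub
      have h1 : Filter.Tendsto (fun n : ℕ => (n : ℝ) + 2) Filter.atTop Filter.atTop :=
        Filter.tendsto_atTop_add_const_right _ _ tendsto_natCast_atTop_atTop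
      have h2 := h1.inv_tendsto_atTop
      refine h2.congr (fun n => ?_)
      simp
    rw [sub_zero, mul_one] at hlim
    exact le_of_tendsto' hlim (fun n => hc n)
  refine ⟨c, lt_of_lt_of_le hMpos hcM, fun y => (le_csSup hbdd ⟨y, rfl⟩).trans hcM⟩

end Pool.Agent.Helper59.Pack
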