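import Mathlib

/-!
# The polynomial inequality behind the key estimate
-/

set_option autoImplicit false
namespace Pool.Agent.Helper59.Pack

theorem cert {s : ℝ} (hs : 27 / 50 ≤ s) (hs1 : s ≤ 1) (a b c : ℝ) (hbc : b ≤ c)
    (h1 : 2 * (1 - s) * b ≤ a) (h2 : a ≤ c - 2 * s * (c - b)) :
    0 ≤ a * ((1 - (3 / 2 * ((107 + 190 * s) / 1000) + 3 * s * (1 / 7) + (166 - 42 * s) / 1000)) * a +
          (s - (3 / 2 * ((107 + 190 * s) / 1000) + 3 * s * (1 / 7) + (166 - 42 * s) / 1000)) *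
            (2 * a)) +
        (b - a) * (((1 - 1 / 7) * s - (3 / 2 * ((107 + 190 * s) / 1000) +
            (166 - 42 * s) / 1000)) * (2 * a + b) +
          ((1 - 1 / 7) * (1 / 2) - (3 / 2 * ((107 + 190 * s) / 1000) +
            (166 - 42 * s) / 1000)) * (a + 2 * b)) +
        (c - b) * (((1 - (107 + 190 * s) / 1000 - 1 / 7) * (1 / 2) -
            (166 - 42 * s) / 1000) * (2 * b + c) +
          ((1 - (107 + 190 * s) / 1000 - 1 / 7) * 0 - (166 - 42 * s) / 1000) * (b + 2 * c)) := by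
  set u := a - 2 * (1 - s) * b with hu
  set v := c - 2 * s * (c - b) - a with hv
  set w := c - b with hw
  have hu0 : 0 ≤ u := by rw [hu]; linarith
  have hv0 : 0 ≤ v := by rw [hv]; linarith
  have hw0 : 0 ≤ w := by rw [hw]; linarith
  have hs2 : 0 < 2 * s - 1 := by linarith
  have B11 : 0 ≤ 41 / 6000 - 103 / 21000 * s := by linarith
  have B12 : 0 ≤ 5287 / 42000 - 9103 / 21000 * s + 8 / 21 * s ^ 2 := by
    nlinarith [sq_nonneg (s - 569 / 1000)]
  have B13 : 0 ≤ 1769 / 24000 - 18437 / 84000 * s + 4 / 21 * s ^ 2 := by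
    nlinarith [sq_nonneg (s - 576 / 1000)]
  have B22 : 0 ≤ 18287 / 42000 - 13701 / 7000 * s + 20 / 7 * s ^ 2 - 4 / 3 * s ^ 3 := by
    nlinarith [mul_nonneg (sub_nonneg.2 hs1) (sq_nonneg (s - 57 / 100)), sq_nonneg (s - 57 / 100)]
  have B23 : 0 ≤ 38383 / 168000 - 27479 / 28000 * s + 10 / 7 * s ^ 2 - 2 / 3 * s ^ 3 := by
    nlinarith [mul_nonneg (sub_nonneg.2 hs1) (sq_nonneg (s - 57 / 100)), sq_nonneg (s - 57 / 100),
      mul_nonneg (sub_nonneg.2 hs1) (sub_nonneg.2 hs)]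
  have B33 : 0 ≤ 7 / 64 - 41117 / 84000 * s + 5 / 7 * s ^ 2 - 1 / 3 * s ^ 3 := by
    nlinarith [mul_nonneg (sub_nonneg.2 hs1) (sq_nonneg (s - 57 / 100)), sq_nonneg (s - 57 / 100)]
  have hkey : 0 ≤ 3 * ((41 / 6000 - 103 / 21000 * s) * (u * u) +
      (18287 / 42000 - 13701 / 7000 * s + 20 / 7 * s ^ 2 - 4 / 3 * s ^ 3) * (v * v) +
      4 * (7 / 64 - 41117 / 84000 * s + 5 / 7 * s ^ 2 - 1 / 3 * s ^ 3) *
        ((2 * s - 1) ^ 2 * (w * w)) +
      2 * (5287 / 42000 - 9103 / 21000 * s + 8 / 21 * s ^ 2) * (u * v) +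
      4 * (1769 / 24000 - 18437 / 84000 * s + 4 / 21 * s ^ 2) * ((2 * s - 1) * (u * w)) +
      4 * (38383 / 168000 - 27479 / 28000 * s + 10 / 7 * s ^ 2 - 2 / 3 * s ^ 3) *
        ((2 * s - 1) * (v * w))) := by
    have huu := mul_nonneg hu0 hu0
    have hvv := mul_nonneg hv0 hv0
    have hww := mul_nonneg hw0 hw0
    have huv := mul_nonneg hu0 hv0
    have huw := mul_nonneg hu0 hw0
    have hvw := mul_nonneg hv0 hw0
    positivity
  have hmul : ∀ X : ℝ, 0 ≤ (2 * s - 1) ^ 2 * X → 0 ≤ X := by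
    intro X hX
    exact nonneg_of_mul_nonneg_right hX (by positivity)
  apply hmul
  refine le_trans hkey (le_of_eq ?_)
  rw [hu, hv, hw]
  ring

end Pool.Agent.Helper59.Pack
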