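import Mathlib

/-!
# An inequality for concave functions on rays, and integration in polar coordinates
-/

set_option autoImplicit false
namespace Pool.Agent.Helper59.Pack
open MeasureTheory

/-- The linear function with value `p` at `a` and `q` at `b`. -/
noncomputable def chord (a b p q r : ℝ) : ℝ := p + (q - p) * ((r - a) / (b - a))

theorem int_chord {a b : ℝ} (hab : a ≤ b) (p q : ℝ) :
    ∫ r in Set.Ioc a b, r * chord a b p q r =
      (b - a) * (p * (2 * a + b) + q * (a + 2 * b)) / 6 := by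
  rcases hab.lt_or_eq with h | h
  · have hne : b - a ≠ 0 := (sub_pos.2 h).ne'
    rw [← intervalIntegral.integral_of_le hab]
    have e : ∀ r : ℝ, r * chord a b p q r =
        (p - (q - p) * a / (b - a)) * r + ((q - p) / (b - a)) * r ^ 2 := by
      intro r
      unfold chord
      field_simp
      ring
    simp only [e]
    rw [intervalIntegral.integral_add (by apply Continuous.intervalIntegrable; fun_prop)
      (by apply Continuous.intervalIntegrable; fun_prop), intervalIntegral.integral_const_mul,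
      intervalIntegral.integral_const_mul, integral_id, integral_pow]
    field_simp
    ring
  · subst h
    simp

theorem polar_nonneg (G : ℝ × ℝ → ℝ)
    (h : ∀ θ : ℝ, 0 ≤ ∫ r in Set.Ioi (0 : ℝ), r * G (r * Real.cos θ, r * Real.sin θ)) :
    0 ≤ ∫ p, G p := by
  rw [← integral_comp_polarCoord_symm]
  have e : polarCoord.target = Set.Ioi (0 : ℝ) ×ˢ Set.Ioo (-Real.pi) Real.pi := rfl
  rw [e]
  by_cases hint : IntegrableOn (fun p : ℝ × ℝ => p.1 • G (polarCoord.symm p))
      (Set.Ioi (0 : ℝ) ×ˢ Set.Ioo (-Real.pi) Real.pi)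
  · have e2 := setIntegral_prod_swap (μ := (volume : Measure ℝ)) (ν := (volume : Measure ℝ))
      (Set.Ioi (0 : ℝ)) (Set.Ioo (-Real.pi) Real.pi)
      (fun p : ℝ × ℝ => p.1 • G (polarCoord.symm p))
    rw [Measure.volume_eq_prod, ← e2, setIntegral_prod]
    · apply setIntegral_nonneg measurableSet_Ioo
      intro θ _
      have := h θ
      simpa [Prod.swap, polarCoord_symm_apply] using this
    · have h3 := hint
      rw [Measure.volume_eq_prod, IntegrableOn, ← Measure.prod_restrict] at h3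
      rw [IntegrableOn, ← Measure.prod_restrict]
      exact h3.swap
  · rw [integral_undef hint]

/-- The one-dimensional estimate. -/
theorem ray_bound (F : ℝ → ℝ) {a b c : ℝ} (ha : 0 ≤ a) (hab : a ≤ b) (hbc : b ≤ c)
    {p₁ q₁ p₂ q₂ p₃ q₃ : ℝ}
    (h1 : ∀ r, 0 < r → r ≤ a → chord 0 a p₁ q₁ r ≤ F r)
    (h2 : ∀ r, a < r → r ≤ b → chord a b p₂ q₂ r ≤ F r)
    (h3 : ∀ r, b < r → r ≤ c → chord b c p₃ q₃ r ≤ F r)
    (h4 : ∀ r, c < r → F r = 0)
    (hpoly : 0 ≤ a * (p₁ * a + q₁ * (2 * a)) + (b - a) * (p₂ * (2 * a + b) + q₂ * (a + 2 * b)) +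
      (c - b) * (p₃ * (2 * b + c) + q₃ * (b + 2 * c))) :
    0 ≤ ∫ r in Set.Ioi (0 : ℝ), r * F r := by
  by_cases hint : IntegrableOn (fun r => r * F r) (Set.Ioi (0 : ℝ))
  · have hb : 0 ≤ b := ha.trans hab
    have hc : 0 ≤ c := hb.trans hbc
    have i1 : IntegrableOn (fun r => r * F r) (Set.Ioc 0 a) :=
      hint.mono_set (fun r hr => hr.1)
    have i2 : IntegrableOn (fun r => r * F r) (Set.Ioc a b) :=
      hint.mono_set (fun r hr => lt_of_le_of_lt ha hr.1)
    have i3 : IntegrableOn (fun r => r * F r) (Set.Ioc b c) :=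
      hint.mono_set (fun r hr => lt_of_le_of_lt hb hr.1)
    have i4 : IntegrableOn (fun r => r * F r) (Set.Ioi c) :=
      hint.mono_set (fun r hr => lt_of_le_of_lt hc hr)
    have e1 : Set.Ioi (0 : ℝ) = Set.Ioc 0 c ∪ Set.Ioi c := (Set.Ioc_union_Ioi_eq_Ioi hc).symm
    have e2 : Set.Ioc 0 c = Set.Ioc 0 b ∪ Set.Ioc b c := (Set.Ioc_union_Ioc_eq_Ioc hb hbc).symm
    have e3 : Set.Ioc 0 b = Set.Ioc 0 a ∪ Set.Ioc a b := (Set.Ioc_union_Ioc_eq_Ioc ha hab).symm
    have hd1 : Disjoint (Set.Ioc (0 : ℝ) c) (Set.Ioi c) :=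
      Set.disjoint_left.2 (fun x hx hx' => absurd hx.2 (not_le.2 hx'))
    have hd2 : Disjoint (Set.Ioc (0 : ℝ) b) (Set.Ioc b c) :=
      Set.disjoint_left.2 (fun x hx hx' => absurd hx.2 (not_le.2 hx'.1))
    have hd3 : Disjoint (Set.Ioc (0 : ℝ) a) (Set.Ioc a b) :=
      Set.disjoint_left.2 (fun x hx hx' => absurd hx.2 (not_le.2 hx'.1))
    have j2 : IntegrableOn (fun r => r * F r) (Set.Ioc 0 b) := by rw [e3]; exact i1.union i2
    have j1 : IntegrableOn (fun r => r * F r) (Set.Ioc 0 c) := by rw [e2]; exact j2.union i3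
    have hzero : ∫ r in Set.Ioi c, r * F r = 0 := by
      apply setIntegral_eq_zero_of_forall_eq_zero
      intro r hr
      rw [h4 r hr, mul_zero]
    have hsplit : ∫ r in Set.Ioi (0 : ℝ), r * F r = (∫ r in Set.Ioc 0 a, r * F r) +
        (∫ r in Set.Ioc a b, r * F r) + ∫ r in Set.Ioc b c, r * F r := by
      rw [e1, setIntegral_union hd1 measurableSet_Ioi j1 i4, hzero, add_zero, e2,
        setIntegral_union hd2 measurableSet_Ioc j2 i3, e3,
        setIntegral_union hd3 measurableSet_Ioc i1 i2]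
    have hci : ∀ x y p q : ℝ, IntegrableOn (fun r => r * chord x y p q r) (Set.Ioc x y) := by
      intro x y p q
      apply IntegrableOn.mono_set _ Set.Ioc_subset_Icc_self
      apply Continuous.integrableOn_Icc
      unfold chord
      fun_prop
    have l1 : ∫ r in Set.Ioc 0 a, r * chord 0 a p₁ q₁ r ≤ ∫ r in Set.Ioc 0 a, r * F r :=
      setIntegral_mono_on (hci _ _ _ _) i1 measurableSet_Ioc
        (fun r hr => mul_le_mul_of_nonneg_left (h1 r hr.1 hr.2) hr.1.le)
    have l2 : ∫ r in Set.Ioc a b, r * chord a b p₂ q₂ r ≤ ∫ r in Set.Ioc a b, r * F r :=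
      setIntegral_mono_on (hci _ _ _ _) i2 measurableSet_Ioc
        (fun r hr => mul_le_mul_of_nonneg_left (h2 r hr.1 hr.2) (ha.trans hr.1.le))
    have l3 : ∫ r in Set.Ioc b c, r * chord b c p₃ q₃ r ≤ ∫ r in Set.Ioc b c, r * F r :=
      setIntegral_mono_on (hci _ _ _ _) i3 measurableSet_Ioc
        (fun r hr => mul_le_mul_of_nonneg_left (h3 r hr.1 hr.2) (hb.trans hr.1.le))
    rw [int_chord ha] at l1
    rw [int_chord hab] at l2
    rw [int_chord hbc] at l3
    rw [hsplit]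
    linarith
  · rw [integral_undef hint]

theorem chord_left (a b p q : ℝ) : chord a b p q a = p := by
  unfold chord; simp

/-- A concave function lies above its chords (with weaker values at the ends). -/
theorem chord_le {S : Set ℝ} {g : ℝ → ℝ} (hg : ConcaveOn ℝ S g) {a b : ℝ} (ha : a ∈ S)
    (hb : b ∈ S) {p q : ℝ} (hp : p ≤ g a) (hq : q ≤ g b) {r : ℝ} (har : a ≤ r) (hrb : r ≤ b)
    (hab : a < b) : chord a b p q r ≤ g r := by
  have hba : 0 < b - a := sub_pos.2 hab
  have w1 : 0 ≤ (b - r) / (b - a) := div_nonneg (by linarith) hba.le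
  have w2 : 0 ≤ (r - a) / (b - a) := div_nonneg (by linarith) hba.le
  have w3 : (b - r) / (b - a) + (r - a) / (b - a) = 1 := by field_simp; ring
  have h1 := hg.2 ha hb w1 w2 w3
  have e : ((b - r) / (b - a)) • a + ((r - a) / (b - a)) • b = r := by
    simp only [smul_eq_mul]
    field_simp
    ring
  rw [e] at h1
  refine le_trans ?_ h1
  unfold chord
  simp only [smul_eq_mul]
  have h2 : ((b - r) / (b - a)) * p ≤ ((b - r) / (b - a)) * g a :=
    mul_le_mul_of_nonneg_left hp (div_nonneg (by linarith) hba.le)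
  have h3 : ((r - a) / (b - a)) * q ≤ ((r - a) / (b - a)) * g b :=
    mul_le_mul_of_nonneg_left hq (div_nonneg (by linarith) hba.le)
  have h4 : p + (q - p) * ((r - a) / (b - a)) = ((b - r) / (b - a)) * p +
      ((r - a) / (b - a)) * q := by
    field_simp
    ring
  rw [h4]
  linarith

theorem chord_affine (a b p q k d r : ℝ) :
    chord a b (k * p - d) (k * q - d) r = k * chord a b p q r - d := by
  unfold chord; ring

/-- The integrand of the key inequality, as a function of the value of the concave function. -/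
noncomputable def phi (s l₁ l₂ t : ℝ) : ℝ :=
  t - l₁ * (min t (1 / 2) + if 1 / 2 ≤ t then 1 else 0) - l₂ * (min t s + if s ≤ t then 2 * s else 0)

theorem phi_zero {s l₁ l₂ : ℝ} (hs : 0 < s) : phi s l₁ l₂ 0 = 0 := by
  unfold phi
  rw [min_eq_left (by norm_num), min_eq_left hs.le, if_neg (by norm_num), if_neg (not_le.2 hs)]
  ring

theorem phi_high {s l₁ l₂ t : ℝ} (hs : 1 / 2 < s) (ht : s ≤ t) :
    phi s l₁ l₂ t = t - (3 / 2 * l₁ + 3 * s * l₂) := by
  unfold phi
  rw [min_eq_right (by linarith), min_eq_right ht, if_pos (by linarith), if_pos ht]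
  ring

theorem phi_mid {s l₁ l₂ t : ℝ} (ht1 : 1 / 2 ≤ t) (ht2 : t < s) :
    phi s l₁ l₂ t = (1 - l₂) * t - 3 / 2 * l₁ := by
  unfold phi
  rw [min_eq_right ht1, min_eq_left ht2.le, if_pos ht1, if_neg (not_le.2 ht2)]
  ring

theorem phi_low {s l₁ l₂ t : ℝ} (hs : 1 / 2 < s) (ht : t < 1 / 2) :
    phi s l₁ l₂ t = (1 - l₁ - l₂) * t := by
  unfold phi
  rw [min_eq_left ht.le, min_eq_left (by linarith), if_neg (not_le.2 ht),
    if_neg (not_le.2 (by linarith))]
  ring

open Classical in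
theorem ray_main {s l₁ l₂ ν : ℝ} (hs : 1 / 2 < s) (hs1 : s ≤ 1) (hl₁ : 0 ≤ l₁) (hl₂ : 0 ≤ l₂)
    (hl : l₁ + l₂ ≤ 1) {S : Set ℝ} {g : ℝ → ℝ} (hS0 : (0 : ℝ) ∈ S) (hSnn : ∀ r ∈ S, 0 ≤ r)
    (hSc : Convex ℝ S) (hScomp : IsCompact S) (hg0 : g 0 = 1) (hgnn : ∀ r ∈ S, 0 ≤ g r)
    (hoff : ∀ r, 0 ≤ r → r ∉ S → g r = 0) (hconc : ConcaveOn ℝ S g)
    (hcl : ∀ u, 0 < u → IsClosed {r | r ∈ S ∧ u ≤ g r})
    (hpoly : ∀ a b c : ℝ, 0 ≤ a → a ≤ b → b ≤ c → 2 * (1 - s) * b ≤ a →
      a ≤ c - 2 * s * (c - b) →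
      0 ≤ a * ((1 - (3 / 2 * l₁ + 3 * s * l₂ + ν)) * a +
          (s - (3 / 2 * l₁ + 3 * s * l₂ + ν)) * (2 * a)) +
        (b - a) * (((1 - l₂) * s - (3 / 2 * l₁ + ν)) * (2 * a + b) +
          ((1 - l₂) * (1 / 2) - (3 / 2 * l₁ + ν)) * (a + 2 * b)) +
        (c - b) * (((1 - l₁ - l₂) * (1 / 2) - ν) * (2 * b + c) +
          ((1 - l₁ - l₂) * 0 - ν) * (b + 2 * c))) :
    0 ≤ ∫ r in Set.Ioi (0 : ℝ), r * (phi s l₁ l₂ (g r) - if r ∈ S then ν else 0) := by
  have hcompu : ∀ u, 0 < u → IsCompact {r | r ∈ S ∧ u ≤ g r} := fun u hu =>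
    hScomp.of_isClosed_subset (hcl u hu) (fun r hr => hr.1)
  have hs0 : 0 < s := by linarith
  obtain ⟨a, haS, hamax⟩ := (hcompu s hs0).exists_isGreatest ⟨0, hS0, by rw [hg0]; exact hs1⟩
  obtain ⟨b, hbS, hbmax⟩ := (hcompu (1 / 2) (by norm_num)).exists_isGreatest
    ⟨0, hS0, by rw [hg0]; norm_num⟩
  obtain ⟨c, hcS, hcmax⟩ := hScomp.exists_isGreatest ⟨0, hS0⟩
  have ha0 : 0 ≤ a := hSnn a haS.1
  have hab : a ≤ b := hbmax ⟨haS.1, by linarith [haS.2]⟩
  have hbc : b ≤ c := hcmax hbS.1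
  have hc0 : 0 ≤ c := hSnn c hcS
  have hseg : ∀ r, 0 ≤ r → r ≤ c → r ∈ S := fun r h0 h1 => hSc.ordConnected.out hS0 hcS ⟨h0, h1⟩
  have c1 : 2 * (1 - s) * b ≤ a := by
    rcases (ha0.trans hab).lt_or_eq with hb | hb
    · have h0 : 0 ≤ 2 * (1 - s) * b := mul_nonneg (by linarith) hb.le
      have h1 : 2 * (1 - s) * b ≤ b := by nlinarith
      apply hamax
      refine ⟨hseg _ h0 (h1.trans hbc), ?_⟩
      have h2 := chord_le hconc hS0 hbS.1 (p := 1) (q := 1 / 2) hg0.ge hbS.2 h0 h1 hb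
      refine le_trans (le_of_eq ?_) h2
      unfold chord
      field_simp
      ring
    · rw [← hb]; simpa using ha0
  have c2 : a ≤ c - 2 * s * (c - b) := by
    rcases (hab.trans hbc).lt_or_eq with hac | hac
    · set r₁ := c - (c - a) / (2 * s) with hr₁
      have h0 : 0 < (c - a) / (2 * s) := div_pos (by linarith) (by linarith)
      have h1 : (c - a) / (2 * s) ≤ c - a := by
        rw [div_le_iff₀ (by linarith)]
        nlinarith
      have h2 := chord_le hconc haS.1 hcS (p := s) (q := 0) haS.2 (hgnn c hcS)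
        (show a ≤ r₁ by rw [hr₁]; linarith) (show r₁ ≤ c by rw [hr₁]; linarith) hac
      have h3 : chord a c s 0 r₁ = 1 / 2 := by
        unfold chord
        rw [hr₁]
        have : c - a ≠ 0 := by linarith
        field_simp
        ring
      have h4 : r₁ ≤ b := by
        apply hbmax
        refine ⟨hseg _ ?_ ?_, ?_⟩
        · rw [hr₁]; linarith
        · rw [hr₁]; linarith
        · rw [← h3]; exact h2
      have h5 : c - b ≤ (c - a) / (2 * s) := by rw [hr₁] at h4; linarith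
      rw [le_div_iff₀ (by linarith)] at h5
      linarith
    · have : b = c := le_antisymm hbc (by linarith)
      rw [hac, this]; simp
  refine ray_bound _ ha0 hab hbc ?_ ?_ ?_ ?_ (hpoly a b c ha0 hab hbc c1 c2)
  · intro r hr0 hra
    have hrS := hseg r hr0.le (hra.trans (hab.trans hbc))
    have h1 := chord_le hconc hS0 haS.1 (p := 1) (q := s) hg0.ge haS.2 hr0.le hra
      (lt_of_lt_of_le hr0 hra)
    have hgs : s ≤ g r := by
      refine le_trans ?_ h1
      unfold chord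
      have h2 : (r - 0) / (a - 0) ≤ 1 := by
        rw [sub_zero, sub_zero]
        exact (div_le_one (lt_of_lt_of_le hr0 hra)).2 hra
      nlinarith
    rw [phi_high hs hgs, if_pos hrS]
    have e := chord_affine 0 a 1 s 1 (3 / 2 * l₁ + 3 * s * l₂ + ν) r
    rw [one_mul, one_mul, one_mul] at e
    rw [e]
    linarith
  · intro r hra hrb
    have hrS := hseg r (ha0.trans hra.le) (hrb.trans hbc)
    have hab' : a < b := lt_of_lt_of_le hra hrb
    have h1 := chord_le hconc haS.1 hbS.1 (p := s) (q := 1 / 2) haS.2 hbS.2 hra.le hrb hab'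
    have hlt : g r < s := by
      by_contra hcon
      push Not at hcon
      exact absurd (hamax ⟨hrS, hcon⟩) (not_le.2 hra)
    have hge : 1 / 2 ≤ g r := by
      refine le_trans ?_ h1
      unfold chord
      have h2 : (r - a) / (b - a) ≤ 1 := (div_le_one (by linarith)).2 (by linarith)
      nlinarith
    rw [phi_mid hge hlt, if_pos hrS, chord_affine]
    have := mul_le_mul_of_nonneg_left h1 (show 0 ≤ 1 - l₂ by linarith)
    linarith
  · intro r hrb hrc
    have hrS := hseg r ((ha0.trans hab).trans hrb.le) hrc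
    have hbc' : b < c := lt_of_lt_of_le hrb hrc
    have h1 := chord_le hconc hbS.1 hcS (p := 1 / 2) (q := 0) hbS.2 (hgnn c hcS) hrb.le hrc hbc'
    have hlt : g r < 1 / 2 := by
      by_contra hcon
      push Not at hcon
      exact absurd (hbmax ⟨hrS, hcon⟩) (not_le.2 hrb)
    rw [phi_low hs hlt, if_pos hrS, chord_affine]
    have := mul_le_mul_of_nonneg_left h1 (show 0 ≤ 1 - l₁ - l₂ by linarith)
    linarith
  · intro r hr
    have hrS : r ∉ S := fun h => absurd (hcmax h) (not_le.2 hr)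
    rw [hoff r (hc0.trans hr.le) hrS, phi_zero hs0, if_neg hrS, sub_zero]

end Pool.Agent.Helper59.Pack
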