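import Pool.Agent.Helper59.Pack.Section
import Pool.Agent.Helper59.Pack.Ray
import Pool.Agent.Helper59.Pack.Cert

/-!
# The key estimates for the lengths of the vertical sections
-/

set_option autoImplicit false
namespace Pool.Agent.Helper59.Pack
open MeasureTheory Metric
open Pool.Agent.Helper69.MD
open scoped ENNReal

theorem plane_nonneg (c : P2) (G : P2 → ℝ)
    (h : ∀ θ : ℝ, 0 ≤ ∫ r in Set.Ioi (0 : ℝ), r * G (c + r • ![Real.cos θ, Real.sin θ])) :
    0 ≤ ∫ y, G y := by
  have e1 : ∫ y, G y = ∫ y, G (c + y) := (integral_add_left_eq_self G c).symm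
  have e2 : ∫ y : P2, G (c + y) = ∫ p : ℝ × ℝ, G (c + ![p.1, p.2]) := by
    have h1 := (volume_preserving_finTwoArrow ℝ).symm.integral_comp
      (MeasurableEquiv.finTwoArrow (α := ℝ)).symm.measurableEmbedding (fun y : P2 => G (c + y))
    rw [← h1]
    refine integral_congr_ae (Filter.Eventually.of_forall (fun p => ?_))
    rfl
  rw [e1, e2]
  apply polar_nonneg
  intro θ
  refine le_of_le_of_eq (h θ) ?_
  refine integral_congr_ae (Filter.Eventually.of_forall (fun r => ?_))
  have : r • ![Real.cos θ, Real.sin θ] = ![r * Real.cos θ, r * Real.sin θ] := by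
    ext i
    fin_cases i <;> simp
  simp only [this]

open Classical in
theorem key {K : Set E3} (hK : IsConvexBody K) {c : P2} {M : ℝ} (hM : len K c = M) (hM0 : 0 < M)
    {s l₁ l₂ ν : ℝ} (hs : 1 / 2 < s) (hs1 : s ≤ 1) (hl₁ : 0 ≤ l₁) (hl₂ : 0 ≤ l₂)
    (hl : l₁ + l₂ ≤ 1)
    (hpoly : ∀ a b c : ℝ, 0 ≤ a → a ≤ b → b ≤ c → 2 * (1 - s) * b ≤ a →
      a ≤ c - 2 * s * (c - b) →
      0 ≤ a * ((1 - (3 / 2 * l₁ + 3 * s * l₂ + ν)) * a +
          (s - (3 / 2 * l₁ + 3 * s * l₂ + ν)) * (2 * a)) +
        (b - a) * (((1 - l₂) * s - (3 / 2 * l₁ + ν)) * (2 * a + b) +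
          ((1 - l₂) * (1 / 2) - (3 / 2 * l₁ + ν)) * (a + 2 * b)) +
        (c - b) * (((1 - l₁ - l₂) * (1 / 2) - ν) * (2 * b + c) +
          ((1 - l₁ - l₂) * 0 - ν) * (b + 2 * c))) :
    0 ≤ ∫ y, (phi s l₁ l₂ (len K y / M) - if y ∈ proj K then ν else 0) := by
  apply plane_nonneg c
  intro θ
  set e : P2 := ![Real.cos θ, Real.sin θ] with he
  set S : Set ℝ := {r | 0 ≤ r ∧ c + r • e ∈ proj K} with hS
  have hcQ : c ∈ proj K := by
    by_contra h
    rw [len_off h] at hM
    linarith
  have hγ : Continuous fun r : ℝ => c + r • e := by fun_prop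
  have haff : ∀ (r r' α β : ℝ), α + β = 1 →
      c + (α • r + β • r') • e = α • (c + r • e) + β • (c + r' • e) := by
    intro r r' α β hαβ
    rw [smul_add, smul_add, add_smul, smul_smul, smul_smul]
    have : c = α • c + β • c := by rw [← add_smul, hαβ, one_smul]
    simp only [smul_eq_mul]
    nth_rewrite 1 [this]
    abel
  have hSc : Convex ℝ S := by
    intro r hr r' hr' α β hα hβ hαβ
    refine ⟨add_nonneg (mul_nonneg hα hr.1) (mul_nonneg hβ hr'.1), ?_⟩
    rw [haff r r' α β hαβ]
    exact proj_convex hK hr.2 hr'.2 hα hβ hαβ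
  have hSclosed : IsClosed S :=
    isClosed_Ici.inter ((proj_compact hK).isClosed.preimage hγ)
  have hScomp : IsCompact S := by
    apply Metric.isCompact_of_isClosed_isBounded hSclosed
    obtain ⟨C, hC⟩ := (proj_compact hK).isBounded.subset_closedBall c
    refine (Metric.isBounded_closedBall (x := (0 : ℝ)) (r := 2 * C)).subset ?_
    intro r hr
    have h1 := hC hr.2
    rw [mem_closedBall, dist_eq_norm, add_sub_cancel_left] at h1
    have h2 : ∀ i, |(r • e) i| ≤ C := fun i => (norm_le_pi_norm (r • e) i).trans h1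
    have h3 := h2 0
    have h4 := h2 1
    simp only [Pi.smul_apply, smul_eq_mul, he, Matrix.cons_val_zero, Matrix.cons_val_one] at h3 h4
    have hC0 : 0 ≤ C := (abs_nonneg _).trans h3
    have h5 : (r * Real.cos θ) ^ 2 ≤ C ^ 2 := by
      rw [← sq_abs]; exact pow_le_pow_left₀ (abs_nonneg _) h3 2
    have h6 : (r * Real.sin θ) ^ 2 ≤ C ^ 2 := by
      rw [← sq_abs]; exact pow_le_pow_left₀ (abs_nonneg _) h4 2
    have h7 : r ^ 2 = (r * Real.cos θ) ^ 2 + (r * Real.sin θ) ^ 2 := by
      have := Real.sin_sq_add_cos_sq θ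
      linear_combination (-r ^ 2) * this
    rw [mem_closedBall_zero_iff, Real.norm_eq_abs, abs_of_nonneg hr.1]
    nlinarith [hr.1]
  have hmain := ray_main (ν := ν) hs hs1 hl₁ hl₂ hl (S := S) (g := fun r => len K (c + r • e) / M)
    ⟨le_rfl, by simpa using hcQ⟩ (fun r hr => hr.1) hSc hScomp
    (by simp only [zero_smul, add_zero]; rw [hM]; exact div_self hM0.ne')
    (fun r _ => div_nonneg (len_nonneg _ _) hM0.le)
    (fun r hr hrS => by
      have h1 : c + r • e ∉ proj K := fun h => hrS ⟨hr, h⟩
      rw [len_off h1, zero_div])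
    (by
      refine ⟨hSc, ?_⟩
      intro r hr r' hr' α β hα hβ hαβ
      have h1 := (len_concave hK).2 hr.2 hr'.2 hα hβ hαβ
      rw [← haff r r' α β hαβ] at h1
      simp only [smul_eq_mul] at h1 ⊢
      rw [← mul_div_assoc, ← mul_div_assoc, ← add_div]
      exact div_le_div_of_nonneg_right h1 hM0.le)
    (by
      intro u hu
      have e1 : {r | r ∈ S ∧ u ≤ len K (c + r • e) / M} =
          Set.Ici 0 ∩ (fun r : ℝ => c + r • e) ⁻¹' {y | u * M ≤ len K y} := by
        ext r
        simp only [hS, Set.mem_ofPred_eq, Set.mem_inter_iff, Set.mem_Ici, Set.mem_preimage]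
        rw [le_div_iff₀ hM0]
        constructor
        · rintro ⟨⟨h1, -⟩, h2⟩
          exact ⟨h1, h2⟩
        · rintro ⟨h1, h2⟩
          refine ⟨⟨h1, ?_⟩, h2⟩
          by_contra h3
          rw [len_off h3] at h2
          have := mul_pos hu hM0
          linarith
      rw [e1]
      exact isClosed_Ici.inter ((superlevel_compact hK (mul_pos hu hM0)).isClosed.preimage hγ))
    hpoly
  refine le_of_le_of_eq hmain ?_
  apply setIntegral_congr_fun measurableSet_Ioi
  intro r hr
  have hr0 : (0 : ℝ) ≤ r := le_of_lt hr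
  have : (r ∈ S) ↔ (c + r • e ∈ proj K) := ⟨fun h => h.2, fun h => ⟨hr0, h⟩⟩
  simp only [this]

theorem integrable_comp {K : Set E3} (hK : IsConvexBody K) {ψ : ℝ → ℝ} (hψ : Measurable ψ)
    (h0 : ψ 0 = 0) {C : ℝ} (hC : ∀ y, |ψ (len K y)| ≤ C) : Integrable fun y => ψ (len K y) := by
  have hsupp : Function.support (fun y => ψ (len K y)) ⊆ proj K := by
    intro y hy
    by_contra h
    apply hy
    change ψ (len K y) = 0
    rw [len_off h, h0]
  rw [← integrableOn_iff_integrable_of_support_subset hsupp]
  refine Measure.integrableOn_of_bounded (M := C) (proj_compact hK).measure_lt_top.ne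
    (hψ.comp (measurable_len hK)).aestronglyMeasurable ?_
  exact Filter.Eventually.of_forall (fun y => by rw [Real.norm_eq_abs]; exact hC y)

theorem integral_len {K : Set E3} (hK : IsConvexBody K) :
    ∫ y, len K y = (volume K).toReal := by
  rw [integral_eq_lintegral_of_nonneg_ae (Filter.Eventually.of_forall (fun y => len_nonneg K y))
    (measurable_len hK).aestronglyMeasurable, volume_eq hK]
  congr 1
  refine lintegral_congr (fun y => ?_)
  rw [len, ENNReal.ofReal_toReal (sec_finite hK y)]

theorem integrable_len {K : Set E3} (hK : IsConvexBody K) : Integrable (len K) := by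
  obtain ⟨C, hC⟩ := len_bounded hK
  exact integrable_comp hK (ψ := id) measurable_id rfl (C := C)
    (fun y => by rw [id, abs_of_nonneg (len_nonneg K y)]; exact hC y)

theorem vol_le {K : Set E3} (hK : IsConvexBody K) {M : ℝ} (hmax : ∀ y, len K y ≤ M) :
    (volume K).toReal ≤ M * (volume (proj K)).toReal := by
  rw [← integral_len hK]
  have hm : MeasurableSet (proj K) := (proj_compact hK).isClosed.measurableSet
  have h1 : ∫ y, len K y ≤ ∫ y, (proj K).indicator (fun _ => M) y := by
    refine integral_mono (integrable_len hK) ?_ ?_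
    · rw [integrable_indicator_iff hm]
      exact integrableOn_const (proj_compact hK).measure_lt_top.ne
    · intro y
      by_cases h : y ∈ proj K
      · rw [Set.indicator_of_mem h]; exact hmax y
      · rw [Set.indicator_of_notMem h, len_off h]
  refine h1.trans (le_of_eq ?_)
  rw [integral_indicator hm, setIntegral_const, Measure.real, smul_eq_mul, mul_comm]

/-- The first functional. -/
noncomputable def A₁ (K : Set E3) (M : ℝ) : ℝ :=
  ∫ y, (min (len K y / M) (1 / 2) + if 1 / 2 ≤ len K y / M then 1 else 0)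

/-- The second functional. -/
noncomputable def A₂ (K : Set E3) (M s : ℝ) : ℝ :=
  ∫ y, (min (len K y / M) s + if s ≤ len K y / M then 2 * s else 0)

theorem integrable_A₁ {K : Set E3} (hK : IsConvexBody K) {M : ℝ} (hM : 0 < M) :
    Integrable fun y => (min (len K y / M) (1 / 2) + if 1 / 2 ≤ len K y / M then (1 : ℝ) else 0) := by
  refine integrable_comp hK
    (ψ := fun t => min (t / M) (1 / 2) + if 1 / 2 ≤ t / M then (1 : ℝ) else 0) ?_ ?_ (C := 3 / 2) ?_
  · apply Measurable.add
    · exact (measurable_id.div_const M).min measurable_const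
    · exact Measurable.ite (measurableSet_le measurable_const (measurable_id.div_const M))
        measurable_const measurable_const
  · norm_num
  · intro y
    have h1 : 0 ≤ len K y / M := div_nonneg (len_nonneg K y) hM.le
    have h2 : 0 ≤ min (len K y / M) (1 / 2) := le_min h1 (by norm_num)
    have h3 : min (len K y / M) (1 / 2) ≤ 1 / 2 := min_le_right _ _
    split_ifs
    · rw [abs_of_nonneg (by linarith)]; linarith
    · rw [abs_of_nonneg (by linarith)]; linarith

theorem integrable_A₂ {K : Set E3} (hK : IsConvexBody K) {M s : ℝ} (hM : 0 < M) (hs : 0 < s) :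
    Integrable fun y => (min (len K y / M) s + if s ≤ len K y / M then 2 * s else 0) := by
  refine integrable_comp hK
    (ψ := fun t => min (t / M) s + if s ≤ t / M then 2 * s else 0) ?_ ?_ (C := 3 * s) ?_
  · apply Measurable.add
    · exact (measurable_id.div_const M).min measurable_const
    · exact Measurable.ite (measurableSet_le measurable_const (measurable_id.div_const M))
        measurable_const measurable_const
  · simp only [zero_div]
    rw [min_eq_left hs.le, if_neg (not_le.2 hs), add_zero]
  · intro y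
    have h1 : 0 ≤ len K y / M := div_nonneg (len_nonneg K y) hM.le
    have h2 : 0 ≤ min (len K y / M) s := le_min h1 hs.le
    have h3 : min (len K y / M) s ≤ s := min_le_right _ _
    split_ifs
    · rw [abs_of_nonneg (by linarith)]; linarith
    · rw [abs_of_nonneg (by linarith)]; linarith

open Classical in
theorem integral_key {K : Set E3} (hK : IsConvexBody K) {M s l₁ l₂ ν : ℝ} (hM : 0 < M)
    (hs : 0 < s) :
    ∫ y, (phi s l₁ l₂ (len K y / M) - if y ∈ proj K then ν else 0) =
      (volume K).toReal / M - l₁ * A₁ K M - l₂ * A₂ K M s - ν * (volume (proj K)).toReal := by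
  have hm : MeasurableSet (proj K) := (proj_compact hK).isClosed.measurableSet
  have i0 : Integrable fun y => len K y / M := (integrable_len hK).div_const M
  have i1 := integrable_A₁ hK hM
  have i2 := integrable_A₂ hK hM hs
  have i3 : Integrable fun y => if y ∈ proj K then ν else 0 := by
    have : (fun y => if y ∈ proj K then ν else 0) = (proj K).indicator (fun _ => ν) := by
      funext y
      by_cases h : y ∈ proj K
      · rw [if_pos h, Set.indicator_of_mem h]
      · rw [if_neg h, Set.indicator_of_notMem h]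
    rw [this, integrable_indicator_iff hm]
    exact integrableOn_const (proj_compact hK).measure_lt_top.ne
  have e3 : ∫ y, (if y ∈ proj K then ν else 0) = ν * (volume (proj K)).toReal := by
    have : (fun y => if y ∈ proj K then ν else 0) = (proj K).indicator (fun _ => ν) := by
      funext y
      by_cases h : y ∈ proj K
      · rw [if_pos h, Set.indicator_of_mem h]
      · rw [if_neg h, Set.indicator_of_notMem h]
    rw [this, integral_indicator hm, setIntegral_const, Measure.real, smul_eq_mul, mul_comm]
  have e0 : ∫ y, len K y / M = (volume K).toReal / M := by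
    rw [integral_div, integral_len hK]
  unfold phi
  have k1 : Integrable fun y => l₁ * (min (len K y / M) (1 / 2) +
      if 1 / 2 ≤ len K y / M then (1 : ℝ) else 0) := i1.const_mul l₁
  have k2 : Integrable fun y => l₂ * (min (len K y / M) s +
      if s ≤ len K y / M then 2 * s else 0) := i2.const_mul l₂
  have j1 : Integrable fun y => len K y / M - l₁ * (min (len K y / M) (1 / 2) +
      if 1 / 2 ≤ len K y / M then (1 : ℝ) else 0) := i0.sub k1
  have j2 : Integrable fun y => len K y / M - l₁ * (min (len K y / M) (1 / 2) +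
      if 1 / 2 ≤ len K y / M then (1 : ℝ) else 0) - l₂ * (min (len K y / M) s +
      if s ≤ len K y / M then 2 * s else 0) := j1.sub k2
  rw [integral_sub j2 i3, e3, integral_sub j1 k2, integral_sub i0 k1, e0, integral_const_mul,
    integral_const_mul]
  rfl

/-- The volume is at least a third of (longest vertical chord) times (area of the projection). -/
theorem kappa_ge {K : Set E3} (hK : IsConvexBody K) {c : P2} {M : ℝ} (hM : len K c = M)
    (hM0 : 0 < M) : 1 / 3 * (volume (proj K)).toReal ≤ (volume K).toReal / M := by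
  have h1 := key hK hM hM0 (s := 1) (l₁ := 0) (l₂ := 0) (ν := 1 / 3) (by norm_num) le_rfl le_rfl
    le_rfl (by norm_num) (by
      intro a b c ha hab hbc _ h2
      nlinarith [mul_nonneg (show 0 ≤ 2 * b - c by linarith) (show 0 ≤ b + c by linarith),
        mul_nonneg ha (ha.trans hab)])
  rw [integral_key hK hM0 one_pos] at h1
  linarith

/-- The key inequality. -/
theorem key_main {K : Set E3} (hK : IsConvexBody K) {c : P2} {M : ℝ} (hM : len K c = M)
    (hM0 : 0 < M) {s : ℝ} (hs : 27 / 50 ≤ s) (hs1 : s ≤ 1) :
    (107 + 190 * s) / 1000 * A₁ K M + 1 / 7 * A₂ K M s +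
      (166 - 42 * s) / 1000 * (volume (proj K)).toReal ≤ (volume K).toReal / M := by
  have h1 := key hK hM hM0 (s := s) (l₁ := (107 + 190 * s) / 1000) (l₂ := 1 / 7)
    (ν := (166 - 42 * s) / 1000) (by linarith) hs1 (by linarith)
    (by norm_num) (by linarith) (fun a b c _ _ hbc h1 h2 => cert hs hs1 a b c hbc h1 h2)
  rw [integral_key hK hM0 (by linarith)] at h1
  linarith

end Pool.Agent.Helper59.Pack
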